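import Pool.Agent.MP_e6aac2_al.Mg.H99_Mach

/-!
Counter machines acting on words, with lamps that act once.  The counters are the exponents of
primes in the difference of the positions of two lamps.
-/

noncomputable section

namespace Pool.Agent.MP_e6aac2_al.H44

open H99 hiding univ
open Finset Function

structure TM (Md St : Type) where
  B : ℕ
  src : Md → St
  tgt : Md → St
  e : Md → ℕ → ℕ
  tst : Md → Finset ℕ → Prop
  act : Md → Bool
  dec : ∀ md S k, tst md S → k < B → e md k = 0 → k ∈ S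
  acc : ∀ md S, act md = true → tst md S → S = ∅

namespace TM

variable {Md St : Type} (M : TM Md St)

def sm (v : Cfg) : ℕ := ∏ k ∈ range M.B, pr k ^ v k

lemma sm_pos (v : Cfg) : 0 < M.sm v := prod_pos fun k _ => pow_pos (pr_prime k).pos _

lemma sm_congr {u v : Cfg} (h : ∀ k < M.B, u k = v k) : M.sm u = M.sm v :=
  prod_congr rfl fun k hk => by rw [h k (mem_range.1 hk)]

lemma sm_add (u v : Cfg) : M.sm u * M.sm v = M.sm fun k => u k + v k := by
  simp only [sm, pow_add, prod_mul_distrib]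

lemma fact_sm (v : Cfg) {k : ℕ} (hk : k < M.B) : (M.sm v).factorization (pr k) = v k := by
  rw [sm, Nat.factorization_prod fun j _ => (pow_pos (pr_prime j).pos _).ne', Finsupp.finsetSum_apply,
    sum_eq_single k]
  · simp [(pr_prime k).factorization_pow]
  · intro j _ hj
    rw [(pr_prime j).factorization_pow, Finsupp.single_apply, if_neg fun h => hj (pr_inj h)]
  · exact fun h => absurd (mem_range.2 hk) h

lemma sm_dvd {v : Cfg} {d : ℤ} (h : ∀ k < M.B, (pr k : ℤ) ^ v k ∣ d) : (M.sm v : ℤ) ∣ d := by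
  rw [Int.natCast_dvd, sm]
  refine prod_dvd_of_isRelPrime (fun i _ j _ hij => ?_) fun k hk =>
    Int.natCast_dvd.1 (by exact_mod_cast h k (mem_range.1 hk))
  exact Nat.coprime_iff_isRelPrime.1 (Nat.Coprime.pow _ _
    ((Nat.coprime_primes (pr_prime i) (pr_prime j)).2 fun e => hij (pr_inj e)))

lemma pow_dvd_sm (v : Cfg) {k : ℕ} (hk : k < M.B) : pr k ^ v k ∣ M.sm v :=
  dvd_prod_of_mem (fun k => pr k ^ v k) (mem_range.2 hk)

def N : ℕ := M.sm fun _ => 1

lemma N_pos : 0 < M.N := M.sm_pos _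

lemma N_ne : (M.N : ℤ) ≠ 0 := by exact_mod_cast M.N_pos.ne'

lemma pr_dvd {k : ℕ} (hk : k < M.B) : (pr k : ℤ) ∣ M.N := by
  have := M.pow_dvd_sm (fun _ => 1) hk
  rw [pow_one] at this
  exact_mod_cast this

def mul (md : Md) : ℕ := M.sm (M.e md)

lemma mul_ne (md : Md) : (M.mul md : ℤ) ≠ 0 := by exact_mod_cast (M.sm_pos _).ne'

def stp (md : Md) (v : Cfg) : Cfg := fun k => if k < M.B then v k + M.e md k - 1 else 0

def vs (v : Cfg) : Finset ℕ := (range M.B).filter fun k => v k ≠ 0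

lemma mem_vs {v : Cfg} {k : ℕ} : k ∈ M.vs v ↔ k < M.B ∧ v k ≠ 0 := by simp [vs]

def zs (y : ℤ) : Finset ℕ := (range M.B).filter fun k => (pr k : ℤ) ∣ y

lemma zs_congr {y y' : ℤ} (h : (M.N : ℤ) ∣ y' - y) : M.zs y = M.zs y' :=
  filter_congr fun k hk => by
    have := (M.pr_dvd (mem_range.1 hk)).trans h
    exact ⟨fun h1 => by simpa using dvd_add this h1, fun h1 => by simpa using dvd_sub h1 this⟩

lemma sm_stp {md : Md} {v : Cfg} (h : M.tst md (M.vs v)) :
    M.sm v * M.mul md = M.N * M.sm (M.stp md v) := by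
  rw [mul, N, sm_add, sm_add]
  refine M.sm_congr fun k hk => ?_
  have := fun h0 => (M.mem_vs.1 (M.dec md _ k h hk h0)).2
  simp only [stp, hk, if_true]
  omega

def cfg (n : ℤ) : Cfg := fun k => if k < M.B then n.natAbs.factorization (pr k) else 0

lemma zs_eq {n : ℤ} (hn : n ≠ 0) : M.zs n = M.vs (M.cfg n) :=
  filter_congr fun k hk => by
    rw [cfg, if_pos (mem_range.1 hk), Int.natCast_dvd,
      (pr_prime k).dvd_iff_one_le_factorization (Int.natAbs_ne_zero.2 hn)]
    omega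

lemma cfg_step (md : Md) {n n' : ℤ} (hn : n ≠ 0) (h : n * M.mul md = M.N * n') :
    n' ≠ 0 ∧ M.cfg n' = M.stp md (M.cfg n) := by
  have hn' : n' ≠ 0 := by
    rintro rfl
    exact mul_ne_zero hn (M.mul_ne md) (h.trans (mul_zero _))
  refine ⟨hn', funext fun k => ?_⟩
  simp only [cfg, stp]
  split_ifs with hk
  · have h1 := congrArg (fun z : ℤ => z.natAbs.factorization (pr k)) h
    simp only [Int.natAbs_mul, Int.natAbs_natCast] at h1
    rw [mul, Nat.factorization_mul (Int.natAbs_ne_zero.2 hn) (M.sm_pos _).ne',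
      Nat.factorization_mul M.N_pos.ne' (Int.natAbs_ne_zero.2 hn'), Finsupp.add_apply,
      Finsupp.add_apply, N, M.fact_sm _ hk, M.fact_sm _ hk] at h1
    omega
  · rfl

lemma sm_cfg_dvd {n : ℤ} : (M.sm (M.cfg n) : ℤ) ∣ n :=
  M.sm_dvd fun k hk => by
    rw [cfg, if_pos hk, ← Nat.cast_pow, Int.natCast_dvd]
    exact Nat.ordProj_dvd _ _

lemma cfg_sm {v : Cfg} (h : ∀ k, M.B ≤ k → v k = 0) : M.cfg (M.sm v) = v := by
  funext k
  rw [cfg]
  split_ifs with hk
  · rw [Int.natAbs_natCast, M.fact_sm _ hk]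
  · exact (h k (not_lt.1 hk)).symm

abbrev Ctl := Md × Fin M.N

abbrev Dat := ZMod 2 × ZMod 2

abbrev Let := M.Ctl × Dat

def al (σ : Option St) (md : Md) (y : ℤ) : Prop :=
  match σ with
  | none => (M.N : ℤ) ∣ y
  | some s => M.src md = s ∧ M.tst md (M.zs y)

def np (md : Md) (y : ℤ) : ℤ := y * M.mul md / M.N

def ns (σ : Option St) (md : Md) : Option St := σ.map fun _ => M.tgt md

lemma al_np {σ : Option St} {md : Md} {y : ℤ} (h : M.al σ md y) :
    y * M.mul md = M.N * M.np md y := by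
  refine (Int.mul_ediv_cancel' ?_).symm
  cases σ with
  | none => exact Dvd.dvd.mul_right h _
  | some s =>
    refine M.sm_dvd fun k hk => ?_
    rw [pow_one]
    by_cases h0 : M.e md k = 0
    · exact (mem_filter.1 (M.dec md _ k h.2 hk h0)).2.mul_right _
    · refine Dvd.dvd.mul_left ?_ _
      exact_mod_cast (dvd_pow_self _ h0).trans (M.pow_dvd_sm (M.e md) hk)

lemma al_of_dvd {σ : Option St} {md : Md} {y y' : ℤ} (hd : (M.N : ℤ) ∣ y' - y) (h : M.al σ md y) :
    M.al σ md y' := by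
  cases σ with
  | none => simpa [al] using dvd_add hd h
  | some s => exact ⟨h.1, M.zs_congr hd ▸ h.2⟩

lemma np_add (md : Md) (y q : ℤ) : M.np md (y + M.N * q) = M.np md y + M.mul md * q := by
  rw [np, np, ← Int.add_mul_ediv_left _ _ M.N_ne]
  congr 1; ring

def hit : List M.Ctl → Option St → ℤ → Prop
  | [], _, _ => False
  | c :: ω, σ, j => M.al σ c.1 (c.2 + j) ∧
      (M.act c.1 = true ∨ hit ω (M.ns σ c.1) (M.np c.1 (c.2 + j)))

def Run : List Md → St → Cfg → Prop
  | [], _, _ => False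
  | md :: L, s, v => M.src md = s ∧ M.tst md (M.vs v) ∧
      (M.act md = true ∨ Run L (M.tgt md) (M.stp md v))

lemma hit_pair (ω : List M.Ctl) : ∀ (s : St) (i j : ℤ), j - i ≠ 0 → M.hit ω none i →
    (M.hit ω (some s) j ↔ M.Run (ω.map Prod.fst) s (M.cfg (j - i))) := by
  induction ω with
  | nil => intro _ _ _ _ h; exact h.elim
  | cons c ω ih =>
    intro s i j hd h
    have e : M.zs (c.2 + j) = M.vs (M.cfg (j - i)) := by
      rw [← M.zs_eq hd]
      exact M.zs_congr (by
        rw [show j - i - (c.2 + j) = -(c.2 + i) by ring]; exact Dvd.dvd.neg_right h.1)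
    simp only [hit, al, List.map_cons, Run, e, and_assoc]
    refine and_congr_right fun h1 => and_congr_right fun h2 => ?_
    rcases h.2 with h3 | h3
    · simp [h3]
    · refine or_congr_right ?_
      have a1 := M.al_np h.1
      have a2 := M.al_np (σ := some s) (md := c.1) (y := c.2 + j) ⟨h1, e ▸ h2⟩
      obtain ⟨b1, b2⟩ := M.cfg_step c.1 hd
        (n' := M.np c.1 (c.2 + j) - M.np c.1 (c.2 + i)) (by rw [mul_sub, ← a1, ← a2]; ring)
      rw [← b2]
      exact ih _ _ _ b1 h3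

lemma hit_iff (ω : List M.Ctl) : ∀ (s : St) (v : Cfg) (i i' : ℤ), M.Run (ω.map Prod.fst) s v →
    M.hit ω none i → (M.hit ω none i' ↔ (M.N * M.sm v : ℤ) ∣ i' - i) := by
  induction ω with
  | nil => intro _ _ _ _ h; exact h.elim
  | cons c ω ih =>
    intro s v i i' hr h
    have a1 := M.al_np h.1
    have a0 : (M.N : ℤ) ∣ c.2 + i := h.1
    have key : (M.N : ℤ) ∣ c.2 + i' ↔ (M.N : ℤ) ∣ i' - i :=
      ⟨fun h1 => by simpa using dvd_sub h1 a0, fun h1 => by
        rw [show (c.2 : ℤ) + i' = i' - i + (c.2 + i) by ring]; exact dvd_add h1 a0⟩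
    by_cases ha : M.act c.1 = true
    · have h0 := M.acc _ _ ha hr.2.1
      have h1 : M.sm v = 1 := prod_eq_one fun k hk => by
        have : k ∉ M.vs v := by simp [h0]
        rw [M.mem_vs] at this
        rw [show v k = 0 by by_contra h2; exact this ⟨mem_range.1 hk, h2⟩, pow_zero]
      simp [hit, al, ha, h1, key]
    · have h2 := h.2.resolve_left ha
      have h3 := hr.2.2.resolve_left ha
      have b1 : (M.sm v * M.mul c.1 : ℤ) = M.N * M.sm (M.stp c.1 v) := by
        exact_mod_cast M.sm_stp hr.2.1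
      simp only [hit, al, ha, key, Bool.false_eq_true, false_or]
      have step : ∀ δ : ℤ, i' - i = M.N * δ → (M.hit ω (M.ns none c.1) (M.np c.1 (c.2 + i')) ↔
          (M.N * M.sm v : ℤ) ∣ i' - i) := by
        intro δ hδ
        rw [show (c.2 : ℤ) + i' = c.2 + i + M.N * δ by linarith, np_add]
        refine (ih _ _ _ _ h3 h2).trans ?_
        rw [← b1, add_sub_cancel_left, hδ, mul_comm (M.mul c.1 : ℤ),
          mul_dvd_mul_iff_right (M.mul_ne _), mul_dvd_mul_iff_left M.N_ne]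
      refine ⟨fun ⟨⟨δ, hδ⟩, h5⟩ => (step δ hδ).1 h5, fun h4 => ?_⟩
      obtain ⟨δ, hδ⟩ := (Dvd.intro _ rfl).trans h4
      exact ⟨⟨δ, hδ⟩, (step δ hδ).2 h4⟩

lemma run_inj (L : List Md) : ∀ (s s' : St) (v v' : Cfg), M.Run L s v → M.Run L s' v' →
    ∀ k < M.B, v k = v' k := by
  induction L with
  | nil => intro _ _ _ _ h; exact h.elim
  | cons md L ih =>
    intro s s' v v' h h' k hk
    by_cases ha : M.act md = true
    · have h0 : k ∉ M.vs v := by simp [M.acc _ _ ha h.2.1]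
      have h1 : k ∉ M.vs v' := by simp [M.acc _ _ ha h'.2.1]
      rw [M.mem_vs] at h0 h1
      omega
    · have h1 := ih _ _ _ _ (h.2.2.resolve_left ha) (h'.2.2.resolve_left ha) k hk
      have h2 := fun h0 => (M.mem_vs.1 (M.dec md _ k h.2.1 hk h0)).2
      have h3 := fun h0 => (M.mem_vs.1 (M.dec md _ k h'.2.1 hk h0)).2
      simp only [stp, hk, if_true] at h1
      omega

def addc (x : Fin M.N) (n : ℤ) : Fin M.N :=
  ⟨((x + n) % M.N).toNat, by
    have h1 := Int.emod_lt_of_pos (x + n) (Int.natCast_pos.2 M.N_pos)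
    have h2 := Int.emod_nonneg (x + n) M.N_ne
    omega⟩

lemma addc_val (x : Fin M.N) (n : ℤ) : (M.addc x n : ℤ) + M.N * ((x + n) / M.N) = x + n := by
  have h2 := Int.emod_nonneg (x + n) M.N_ne
  simp only [addc, Int.toNat_of_nonneg h2]
  exact Int.emod_add_mul_ediv _ _

lemma addc_addc (x : Fin M.N) (m n : ℤ) : M.addc (M.addc x m) n = M.addc x (n + m) := by
  apply Fin.ext
  have h := M.addc_val x m
  have : (x + (n + m) : ℤ) = M.addc x m + n + M.N * ((x + m) / M.N) := by linarith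
  simp only [addc] at this ⊢
  rw [this, Int.add_mul_emod_self_left]

lemma car_add (x : Fin M.N) (m n : ℤ) :
    (M.addc x m + n : ℤ) / M.N + (x + m) / M.N = (x + (n + m)) / M.N := by
  have h := M.addc_val x m
  rw [← Int.add_mul_ediv_left _ _ M.N_ne]
  congr 1; linarith

lemma exists_hit (L : List Md) : ∀ (s : St) (v : Cfg) (i : ℤ), M.Run L s v →
    ∃ ω : List M.Ctl, ω.map Prod.fst = L ∧ M.hit ω none i := by
  induction L with
  | nil => intro _ _ _ h; exact h.elim
  | cons md L ih =>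
    intro s v i h
    have h0 := M.addc_val ⟨0, M.N_pos⟩ (-i)
    have h1 : M.al none md (M.addc ⟨0, M.N_pos⟩ (-i) + i) :=
      ⟨-((((⟨0, M.N_pos⟩ : Fin M.N) : ℕ) + -i : ℤ) / M.N), by simp at h0 ⊢; linarith⟩
    rcases h.2.2 with ha | hr
    · exact ⟨(md, M.addc ⟨0, M.N_pos⟩ (-i)) :: L.map fun m => (m, ⟨0, M.N_pos⟩),
        by simp [Function.comp_def], h1, Or.inl ha⟩
    · obtain ⟨ω, h2, h3⟩ := ih _ _ (M.np md (M.addc ⟨0, M.N_pos⟩ (-i) + i)) hr
      exact ⟨(md, M.addc ⟨0, M.N_pos⟩ (-i)) :: ω, by simp [h2], h1, Or.inr h3⟩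

end TM

namespace TM

variable {Md St : Type} (M : TM Md St)

def hs (A B C : ZMod 2) (d : Dat) : Dat := (d.1 + A, d.2 + B * d.1 + C)

def fa (A B C : ZMod 2) : List M.Let → List M.Let
  | [] => []
  | a :: w => if M.act a.1.1 = true then (a.1, hs A B C a.2) :: w else a :: fa A B C w

lemma ctl_fa (A B C : ZMod 2) (w : List M.Let) : (M.fa A B C w).map Prod.fst = w.map Prod.fst := by
  induction w with
  | nil => rfl
  | cons a w ih => simp only [fa]; split_ifs <;> simp [ih]

lemma fa_fa (A B C A' B' C' : ZMod 2) (w : List M.Let) :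
    M.fa A' B' C' (M.fa A B C w) = M.fa (A + A') (B + B') (C + C' + B' * A) w := by
  induction w with
  | nil => rfl
  | cons a w ih =>
    by_cases h : M.act a.1.1 = true
    · simp only [fa, h, if_true, hs]
      congr 3 <;> ring
    · simp only [fa, h, ih, Bool.false_eq_true, if_false]

lemma fa_zero (w : List M.Let) : M.fa 0 0 0 w = w := by
  induction w with
  | nil => rfl
  | cons a w ih => simp only [fa, ih, hs]; split_ifs <;> simp

abbrev Fn := List M.Ctl → ZMod 2

lemma two (x : ZMod 2) : x + x = 0 := CharTwo.add_self_eq_zero x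

lemma two' (A : M.Fn) : A + A = 0 := funext fun _ => two _

def heis (A B C : M.Fn) : Equiv.Perm (List M.Let) where
  toFun w := M.fa (A (w.map Prod.fst)) (B (w.map Prod.fst)) (C (w.map Prod.fst)) w
  invFun w := M.fa (A (w.map Prod.fst)) (B (w.map Prod.fst))
    (C (w.map Prod.fst) + B (w.map Prod.fst) * A (w.map Prod.fst)) w
  left_inv w := by
    simp only [ctl_fa, fa_fa, two, ← add_assoc, zero_add, fa_zero]
  right_inv w := by
    simp only [ctl_fa, fa_fa, two]
    rw [add_right_comm (C _), two, zero_add, two, fa_zero]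

lemma heis_apply (A B C : M.Fn) (w : List M.Let) : M.heis A B C w =
    M.fa (A (w.map Prod.fst)) (B (w.map Prod.fst)) (C (w.map Prod.fst)) w := rfl

lemma heis_mul (A B C A' B' C' : M.Fn) :
    M.heis A' B' C' * M.heis A B C = M.heis (A + A') (B + B') (C + C' + B' * A) :=
  Equiv.ext fun w => by simp only [Equiv.Perm.mul_apply, heis_apply, ctl_fa, fa_fa]; rfl

lemma heis_zero : M.heis 0 0 0 = 1 := Equiv.ext M.fa_zero

lemma heis_inv (A B C : M.Fn) : (M.heis A B C)⁻¹ = M.heis A B (C + B * A) := Equiv.ext fun _ => rfl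

open Classical in
def ind (σ : Option St) (j : ℤ) : M.Fn := fun ω => if M.hit ω σ j then 1 else 0

lemma ind_congr {σ σ' : Option St} {j j' : ℤ} {ω ω' : List M.Ctl}
    (h : M.hit ω σ j ↔ M.hit ω' σ' j') : M.ind σ j ω = M.ind σ' j' ω' := by
  rw [ind, ind, propext h]

def lamp : Option St → ℤ → Equiv.Perm (List M.Let)
  | none, j => M.heis (M.ind none j) 0 0
  | some s, j => M.heis 0 (M.ind (some s) j) 0

lemma lamp_inv (σ : Option St) (j : ℤ) : (M.lamp σ j)⁻¹ = M.lamp σ j := by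
  cases σ <;> simp [lamp, heis_inv]

def trF : ℤ → List M.Let → List M.Let
  | _, [] => []
  | n, a :: w => ((a.1.1, M.addc a.1.2 n), a.2) :: trF (M.mul a.1.1 * ((a.1.2 + n) / M.N)) w

lemma trF_add (w : List M.Let) : ∀ n m : ℤ, M.trF n (M.trF m w) = M.trF (n + m) w := by
  induction w with
  | nil => intros; rfl
  | cons a w ih =>
    intro n m
    simp only [trF, ih, addc_addc, ← mul_add, car_add]

lemma trF_zero (w : List M.Let) : M.trF 0 w = w := by
  induction w with
  | nil => rfl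
  | cons a w ih =>
    have h1 : ((a.1.2 : ℤ) + 0) / M.N = 0 :=
      Int.ediv_eq_zero_of_lt (by positivity) (by have := a.1.2.2; omega)
    have h2 : M.addc a.1.2 0 = a.1.2 := by
      have := M.addc_val a.1.2 0
      rw [h1] at this
      exact Fin.ext (by omega)
    simp only [trF, h1, h2, mul_zero, ih]

def tr (n : ℤ) : Equiv.Perm (List M.Let) where
  toFun := M.trF n
  invFun := M.trF (-n)
  left_inv w := by rw [trF_add, neg_add_cancel, trF_zero]
  right_inv w := by rw [trF_add, add_neg_cancel, trF_zero]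

lemma tr_add (n m : ℤ) : M.tr (n + m) = M.tr n * M.tr m :=
  Equiv.ext fun w => (M.trF_add w n m).symm

lemma tr_neg (n : ℤ) : M.tr (-n) = (M.tr n)⁻¹ := Equiv.ext fun _ => rfl

lemma tr_zpow (k : ℤ) : M.tr k = M.tr 1 ^ k := by
  induction k using Int.induction_on with
  | zero => exact Equiv.ext M.trF_zero
  | succ i ih => rw [tr_add, ih, zpow_add_one]
  | pred i ih => rw [sub_eq_add_neg, tr_add, ih, tr_neg, ← zpow_sub_one, sub_eq_add_neg]

lemma hit_trF (w : List M.Let) : ∀ (σ : Option St) (j n : ℤ),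
    M.hit ((M.trF n w).map Prod.fst) σ j ↔ M.hit (w.map Prod.fst) σ (j + n) := by
  induction w with
  | nil => intros; rfl
  | cons a w ih =>
    intro σ j n
    have h := M.addc_val a.1.2 n
    have e : (a.1.2 : ℤ) + (j + n) = M.addc a.1.2 n + j + M.N * ((a.1.2 + n) / M.N) := by linarith
    simp only [trF, List.map_cons, hit, ih, e, np_add]
    exact and_congr_left fun _ => ⟨M.al_of_dvd (by simp), M.al_of_dvd (by simp)⟩

lemma fa_trF (A B C : ZMod 2) (w : List M.Let) : ∀ n : ℤ,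
    M.fa A B C (M.trF n w) = M.trF n (M.fa A B C w) := by
  induction w with
  | nil => intros; rfl
  | cons a w ih => intro n; simp only [trF, fa]; split_ifs <;> simp [trF, ih]

lemma lamp_conj (σ : Option St) (j : ℤ) : M.lamp σ j = (M.tr j)⁻¹ * M.lamp σ 0 * M.tr j := by
  rw [mul_assoc, eq_inv_mul_iff_mul_eq]
  refine Equiv.ext fun w => ?_
  have h : M.ind σ 0 ((M.tr j w).map Prod.fst) = M.ind σ j (w.map Prod.fst) :=
    M.ind_congr ((M.hit_trF w σ 0 j).trans (by rw [zero_add]))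
  cases σ <;>
  · show M.trF j (M.fa _ _ _ w) = M.fa _ _ _ (M.trF j w)
    rw [fa_trF, h]
    rfl

variable [Fintype Md]

open Classical in
def gens : Finset (Equiv.Perm (List M.Let)) :=
  insert (M.tr 1) (univ.image fun q : Option Md => M.lamp (q.map M.src) 0)

lemma mem_gens {g : Equiv.Perm (List M.Let)} : g ∈ M.gens ↔
    g = M.tr 1 ∨ ∃ q : Option Md, g = M.lamp (q.map M.src) 0 := by
  simp only [gens, mem_insert, mem_image, mem_univ, true_and, eq_comm (b := g)]

def grp : Subgroup (Equiv.Perm (List M.Let)) := Subgroup.closure (M.gens : Set _)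

open Classical in
def gensG : Finset M.grp := M.gens.subtype (· ∈ M.grp)

lemma mem_gensG {g : M.grp} : g ∈ M.gensG ↔ g.1 ∈ M.gens := by simp [gensG]

lemma closure_gensG : Subgroup.closure (M.gensG : Set M.grp) = ⊤ := by
  have : (M.gensG : Set M.grp) = (↑) ⁻¹' (M.gens : Set (Equiv.Perm (List M.Let))) :=
    Set.ext fun g => M.mem_gensG
  rw [this]
  exact Subgroup.closure_closure_coe_preimage

lemma tr_mem (n : ℤ) : M.tr n ∈ M.grp := by
  rw [tr_zpow]
  exact zpow_mem (Subgroup.subset_closure (M.mem_gens.2 (Or.inl rfl))) _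

lemma lamp_zero (σ : Option St) : M.lamp σ 0 ∈ M.gens ∨ M.lamp σ 0 = 1 := by
  cases σ with
  | none => exact Or.inl (M.mem_gens.2 (Or.inr ⟨none, rfl⟩))
  | some s =>
    by_cases h : ∃ md, M.src md = s
    · obtain ⟨md, rfl⟩ := h
      exact Or.inl (M.mem_gens.2 (Or.inr ⟨some md, rfl⟩))
    · refine Or.inr ?_
      rw [lamp, ← heis_zero]
      congr 1
      funext ω
      refine if_neg fun h1 => ?_
      cases ω with
      | nil => exact h1
      | cons c ω => exact h ⟨_, h1.1.1⟩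

lemma lamp_mem (σ : Option St) (j : ℤ) : M.lamp σ j ∈ M.grp := by
  rw [lamp_conj]
  refine mul_mem (mul_mem (inv_mem (M.tr_mem j)) ?_) (M.tr_mem j)
  rcases M.lamp_zero σ with h | h
  · exact Subgroup.subset_closure h
  · exact h ▸ one_mem _

lemma selfSimilar : IsSelfSimilar M.grp := by
  have h1 : ∀ n x, ∃ y, ∃ h ∈ M.grp, ∀ w, M.tr n (x :: w) = y :: h w := fun n x =>
    ⟨_, _, M.tr_mem _, fun _ => rfl⟩
  have h2 : ∀ σ j x, ∃ y, ∃ h ∈ M.grp, ∀ w, M.lamp σ j (x :: w) = y :: h w := by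
    intro σ j x
    by_cases h : M.al σ x.1.1 (x.1.2 + j)
    · by_cases ha : M.act x.1.1 = true
      · cases σ <;> exact ⟨_, 1, one_mem _, fun w => by
          simp only [lamp, heis_apply, fa, ha, if_true, ind, List.map_cons, hit, h, true_or,
            and_self, Pi.zero_apply]
          rfl⟩
      · refine ⟨x, _, M.lamp_mem (M.ns σ x.1.1) (M.np x.1.1 (x.1.2 + j)), fun w => ?_⟩
        have e : M.ind σ j ((x :: w).map Prod.fst) =
            M.ind (M.ns σ x.1.1) (M.np x.1.1 (x.1.2 + j)) (w.map Prod.fst) :=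
          M.ind_congr (by simp [hit, h, ha])
        cases σ <;> simp only [lamp, heis_apply, e, fa, ha, ns, Option.map] <;> rfl
    · refine ⟨x, 1, one_mem _, fun w => ?_⟩
      cases σ <;> simp only [lamp, heis_apply, ind, List.map_cons, hit, h, false_and, if_false,
        Pi.zero_apply, fa_zero] <;> rfl
  intro g hg
  induction hg using Subgroup.closure_induction'' with
  | mem g hg =>
    rcases M.mem_gens.1 hg with rfl | ⟨q, rfl⟩
    · exact h1 _
    · exact h2 _ _
  | inv_mem g hg =>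
    rcases M.mem_gens.1 hg with rfl | ⟨q, rfl⟩
    · rw [← tr_neg]; exact h1 _
    · rw [lamp_inv]; exact h2 _ _
  | one => exact fun x => ⟨x, 1, one_mem _, fun _ => rfl⟩
  | mul g h _ _ hg hh =>
    intro x
    obtain ⟨y, h', a1, a2⟩ := hh x
    obtain ⟨z, g', b1, b2⟩ := hg y
    exact ⟨z, g' * h', mul_mem b1 a1, fun w => by simp only [Equiv.Perm.mul_apply, a2, b2]⟩

def trG (n : ℤ) : M.grp := ⟨M.tr n, M.tr_mem n⟩

def lampG (σ : Option St) (j : ℤ) : M.grp := ⟨M.lamp σ j, M.lamp_mem σ j⟩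

end TM

lemma geo_sum {a : ℕ → ℕ} (h : ∀ x, 2 * a x ≤ a (x + 1)) (R n : ℕ) :
    ∑ x ∈ range n with a x ≤ R, a x ≤ 2 * R := by
  have h1 : ∀ n, ∑ x ∈ range n, a x ≤ a n := fun n => by
    induction n with
    | zero => simp
    | succ n ih => rw [sum_range_succ]; have := h n; omega
  induction n with
  | zero => simp
  | succ n ih =>
    by_cases hn : a n ≤ R
    · refine (sum_le_sum_of_subset (filter_subset _ _)).trans ?_
      rw [sum_range_succ]; have := h1 n; omega
    · rwa [range_add_one, filter_insert, if_neg hn]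

lemma lt_of_geo {a : ℕ → ℕ} (h : ∀ x, 2 * a x ≤ a (x + 1)) (h0 : 0 < a 0) (x : ℕ) : x < a x := by
  induction x with
  | zero => exact h0
  | succ x ih => have := h x; omega

lemma card_span {V : Type} [AddCommGroup V] [Module (ZMod 2) V] (s : Finset V) :
    Finite (Submodule.span (ZMod 2) (s : Set V)) ∧
      Nat.card (Submodule.span (ZMod 2) (s : Set V)) ≤ 2 ^ #s := by
  refine ⟨Module.finite_of_finite (ZMod 2), ?_⟩
  rw [Module.natCard_eq_pow_finrank (K := ZMod 2), Nat.card_zmod]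
  exact Nat.pow_le_pow_right (by norm_num) (finrank_span_finset_le_card s)

namespace TM

variable {Md St : Type} (M : TM Md St)

def box (a b c : Finset M.Fn) (h : ∀ A ∈ a, ∀ B ∈ b, B * A = 0 ∨ B * A ∈ c) :
    Subgroup (Equiv.Perm (List M.Let)) :=
  have key : ∀ A ∈ Submodule.span (ZMod 2) (a : Set M.Fn), ∀ B ∈ Submodule.span (ZMod 2) (b : Set M.Fn),
      B * A ∈ Submodule.span (ZMod 2) (c : Set M.Fn) := fun A hA B hB => by
    have := Submodule.mul_mem_mul hB hA
    rw [Submodule.span_mul_span] at this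
    refine Submodule.span_le.2 ?_ this
    rintro _ ⟨B, hB, A, hA, rfl⟩
    rcases h A hA B hB with h | h
    · show B * A ∈ _
      rw [h]; exact zero_mem _
    · exact Submodule.subset_span h
  { carrier := {g | ∃ A ∈ Submodule.span (ZMod 2) (a : Set M.Fn),
      ∃ B ∈ Submodule.span (ZMod 2) (b : Set M.Fn), ∃ C ∈ Submodule.span (ZMod 2) (c : Set M.Fn),
        g = M.heis A B C}
    one_mem' := ⟨0, zero_mem _, 0, zero_mem _, 0, zero_mem _, M.heis_zero.symm⟩
    mul_mem' := by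
      rintro _ _ ⟨A', hA', B', hB', C', hC', rfl⟩ ⟨A, hA, B, hB, C, hC, rfl⟩
      exact ⟨_, add_mem hA hA', _, add_mem hB hB', _, add_mem (add_mem hC hC') (key _ hA _ hB'),
        M.heis_mul ..⟩
    inv_mem' := by
      rintro _ ⟨A, hA, B, hB, C, hC, rfl⟩
      exact ⟨_, hA, _, hB, _, add_mem hC (key _ hA _ hB), M.heis_inv ..⟩ }

lemma card_box (a b c : Finset M.Fn) (h) :
    Finite (M.box a b c h) ∧ Nat.card (M.box a b c h) ≤ 2 ^ (#a + #b + #c) := by
  obtain ⟨f1, c1⟩ := card_span a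
  obtain ⟨f2, c2⟩ := card_span b
  obtain ⟨f3, c3⟩ := card_span c
  let φ : Submodule.span (ZMod 2) (a : Set M.Fn) × Submodule.span (ZMod 2) (b : Set M.Fn) ×
      Submodule.span (ZMod 2) (c : Set M.Fn) → M.box a b c h := fun p =>
    ⟨_, p.1, p.1.2, p.2.1, p.2.1.2, p.2.2, p.2.2.2, rfl⟩
  have hφ : Surjective φ := by
    rintro ⟨_, A, hA, B, hB, C, hC, rfl⟩
    exact ⟨(⟨A, hA⟩, ⟨B, hB⟩, ⟨C, hC⟩), rfl⟩
  refine ⟨Finite.of_surjective φ hφ, (Nat.card_le_card_of_surjective φ hφ).trans ?_⟩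
  rw [Nat.card_prod, Nat.card_prod, add_assoc, pow_add, pow_add]
  gcongr

open Classical in
def pf (s : St) (v : Cfg) (i : ℤ) : M.Fn := fun ω =>
  if M.hit ω none i ∧ M.Run (ω.map Prod.fst) s v then 1 else 0

lemma ind_mul (s : St) {i j : ℤ} (h : j - i ≠ 0) :
    M.ind (some s) j * M.ind none i = M.pf s (M.cfg (j - i)) i := by
  funext ω
  by_cases h1 : M.hit ω none i
  · have := M.hit_pair ω s i j h h1
    by_cases h2 : M.hit ω (some s) j
    · simp only [Pi.mul_apply, ind, pf, h1, h2, this.1 h2, and_self, if_true, mul_one]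
    · simp only [Pi.mul_apply, ind, pf, h2, mt this.2 h2, and_false, if_false, zero_mul]
  · simp [ind, pf, h1]

lemma pf_congr (s : St) (v : Cfg) {i i' : ℤ} (h : (M.N * M.sm v : ℤ) ∣ i' - i) :
    M.pf s v i = M.pf s v i' := by
  funext ω
  classical
  exact if_congr (and_congr_left fun hr => ⟨fun h1 => (M.hit_iff ω s v i i' hr h1).2 h,
    fun h1 => (M.hit_iff ω s v i' i hr h1).2 (dvd_sub_comm.1 h)⟩) rfl rfl

variable [Fintype Md]

theorem upper {κ : Type} (n R : ℕ) (hR : R = 2 * #M.gensG * n) (I : Finset κ) (s : κ → ℕ → Cfg)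
    (hg : ∀ ι x, 2 * M.sm (s ι x) ≤ M.sm (s ι (x + 1)))
    (hc : ∀ q v L, (∀ k, M.B ≤ k → v k = 0) → M.Run L q v → M.sm v ≤ R →
      ∃ ι ∈ I, ∃ x, v = s ι x) :
    ∃ E, IsFolner M.gensG n E ∧ E.ncard ≤ (R + 1) *
      2 ^ ((R + 1) * (1 + 2 * Fintype.card Md) + Fintype.card Md * (#I * (M.N * (2 * R)))) := by
  classical
  let a : Finset M.Fn := (range (R + 1)).image fun i : ℕ => M.ind none i
  let b : Finset M.Fn := (univ ×ˢ range (R + 1)).image fun p : Md × ℕ => M.ind (some (M.src p.1)) p.2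
  let c1 : Finset M.Fn := (univ ×ˢ range (R + 1)).image fun p : Md × ℕ =>
    M.ind (some (M.src p.1)) p.2 * M.ind none p.2
  let c2 : Finset M.Fn := (univ ×ˢ I).biUnion fun p : Md × κ =>
    ((range (R + 1)).filter fun x => M.sm (s p.2 x) ≤ R).biUnion fun x =>
      (range (M.N * M.sm (s p.2 x))).image fun r : ℕ => M.pf (M.src p.1) (s p.2 x) r
  have h : ∀ A ∈ a, ∀ B ∈ b, B * A = 0 ∨ B * A ∈ c1 ∪ c2 := by
    intro A hA B hB
    obtain ⟨i, hi, rfl⟩ := mem_image.1 hA
    obtain ⟨⟨md, j⟩, hj, rfl⟩ := mem_image.1 hB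
    have hi' := mem_range.1 hi
    have hj' := mem_range.1 (mem_product.1 hj).2
    by_cases hd : (j : ℤ) - i = 0
    · obtain rfl : j = i := by omega
      exact Or.inr (mem_union_left _ (mem_image.2 ⟨(md, j), hj, rfl⟩))
    rw [M.ind_mul _ hd]
    by_cases hL : ∃ L, M.Run L (M.src md) (M.cfg (j - i))
    · obtain ⟨L, hL⟩ := hL
      have h1 : M.sm (M.cfg (j - i)) ≤ R := by
        have := Int.le_of_dvd (abs_pos.2 hd) ((dvd_abs _ _).2 (M.sm_cfg_dvd (n := j - i)))
        have : |(j : ℤ) - i| ≤ R := abs_le.2 ⟨by omega, by simp only at hj'; omega⟩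
        omega
      obtain ⟨ι, hι, x, hx⟩ := hc _ (M.cfg (j - i)) L (fun k hk => if_neg (not_lt.2 hk)) hL h1
      rw [hx] at h1 ⊢
      have h2 := lt_of_geo (hg ι) (M.sm_pos _) x
      refine Or.inr (mem_union_right _ (mem_biUnion.2 ⟨(md, ι), by simp [hι],
        mem_biUnion.2 ⟨x, by simp [h1]; omega, mem_image.2 ⟨i % (M.N * M.sm (s ι x)),
          mem_range.2 (Nat.mod_lt _ (Nat.mul_pos M.N_pos (M.sm_pos _))), M.pf_congr _ _ ?_⟩⟩⟩))
      exact_mod_cast (Nat.mod_modEq i (M.N * M.sm (s ι x))).dvd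
    · exact Or.inl (funext fun ω => if_neg fun h => hL ⟨_, h.2⟩)
  obtain ⟨hf, hcard⟩ := M.card_box a b (c1 ∪ c2) h
  let ψ : (M.box a b (c1 ∪ c2) h).subgroupOf M.grp → M.box a b (c1 ∪ c2) h := fun g => ⟨g.1.1, g.2⟩
  have hψ : Injective ψ := fun g g' e => Subtype.ext (Subtype.ext
    (show g.1.1 = g'.1.1 from congrArg (fun x : M.box a b (c1 ∪ c2) h => x.1) e))
  have := Finite.of_injective ψ hψ
  obtain ⟨E, hE, hE'⟩ := exists_folner_box (K := Unit) M.gensG n (fun a => M.trG (a ()))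
    (fun a b => Subtype.ext (M.tr_add _ _)) ((M.box a b (c1 ∪ c2) h).subgroupOf M.grp) (by
      intro g hs
      rcases M.mem_gens.1 (M.mem_gensG.1 hs) with h | ⟨q, h⟩
      · exact Or.inl ⟨(), Subtype.ext h⟩
      · refine Or.inr fun t ht => ?_
        rw [Subgroup.mem_subgroupOf]
        simp only [Subgroup.coe_mul, Subgroup.coe_inv, h, trG]
        rw [← lamp_conj]
        obtain ⟨j, hj⟩ := Int.eq_ofNat_of_zero_le (ht ()).1
        have h2 : j ∈ range (R + 1) := by have := (ht ()).2; rw [mem_range]; omega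
        rw [hj]
        cases q with
        | none => exact ⟨_, Submodule.subset_span (mem_coe.2 (mem_image.2 ⟨j, h2, rfl⟩)), 0,
            zero_mem _, 0, zero_mem _, rfl⟩
        | some md => exact ⟨0, zero_mem _, _, Submodule.subset_span (mem_coe.2
            (mem_image.2 ⟨(md, j), mem_product.2 ⟨mem_univ _, h2⟩, rfl⟩)), 0, zero_mem _, rfl⟩)
  refine ⟨E, hE, hE'.trans ?_⟩
  rw [← hR, Fintype.card_unit, pow_one]
  refine Nat.mul_le_mul_left _ ((Nat.card_le_card_of_injective ψ hψ).trans (hcard.trans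
    (Nat.pow_le_pow_right (by norm_num) ?_)))
  have d1 : #a ≤ R + 1 := card_image_le.trans (by simp)
  have d2 : #b ≤ Fintype.card Md * (R + 1) := card_image_le.trans (by simp)
  have d3 : #c1 ≤ Fintype.card Md * (R + 1) := card_image_le.trans (by simp)
  have d4 : #c2 ≤ Fintype.card Md * (#I * (M.N * (2 * R))) := by
    refine (card_biUnion_le_card_mul _ _ (M.N * (2 * R)) fun p _ => ?_).trans
      (by rw [card_product, card_univ, mul_assoc])
    refine card_biUnion_le.trans ((sum_le_sum fun x _ => card_image_le).trans ?_)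
    simp only [card_range, ← mul_sum]
    exact Nat.mul_le_mul_left _ (geo_sum (hg p.2) R _)
  have := card_union_le c1 c2
  nlinarith

def bit : List M.Let → ZMod 2
  | [] => 0
  | a :: w => if M.act a.1.1 = true then a.2.2 else bit w

omit [Fintype Md] in
lemma bit_fa (C : ZMod 2) (w : List M.Let) : ∀ i, M.hit (w.map Prod.fst) none i →
    M.bit (M.fa 0 0 C w) = M.bit w + C := by
  induction w with
  | nil => exact fun _ h => h.elim
  | cons a w ih =>
    intro i h
    by_cases ha : M.act a.1.1 = true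
    · simp [fa, bit, ha, hs]
    · simpa [fa, bit, ha] using ih _ (h.2.resolve_left ha)

def cen : Subgroup (Equiv.Perm (List M.Let)) where
  carrier := {g | ∃ C, g = M.heis 0 0 C}
  one_mem' := ⟨0, M.heis_zero.symm⟩
  mul_mem' := by
    rintro _ _ ⟨C, rfl⟩ ⟨C', rfl⟩
    exact ⟨C' + C, by simp [heis_mul]⟩
  inv_mem' := by
    rintro _ ⟨C, rfl⟩
    exact ⟨_, M.heis_inv ..⟩

lemma bd_lamp {E : Set M.grp} (hE : E.Finite) {m : ℕ} (h : ∀ s ∈ M.gensG, bd E s ≤ m)
    (σ : Option St) (j : ℕ) : bd E (M.lampG σ j) ≤ (2 * j + 1) * m := by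
  have e : M.lampG σ j = (M.trG 1 ^ j)⁻¹ * M.lampG σ 0 * M.trG 1 ^ j := Subtype.ext (by
    simp only [lampG, trG, Subgroup.coe_mul, Subgroup.coe_inv, SubgroupClass.coe_pow]
    rw [← zpow_natCast, ← tr_zpow, ← lamp_conj])
  have h1 : bd E (M.trG 1 ^ j) ≤ j * m := (bd_pow hE _ _).trans (Nat.mul_le_mul_left _
    (h _ (M.mem_gensG.2 (M.mem_gens.2 (Or.inl rfl)))))
  have h2 : bd E (M.lampG σ 0) ≤ m := by
    rcases M.lamp_zero σ with h3 | h3
    · exact h _ (M.mem_gensG.2 h3)
    · rw [show M.lampG σ 0 = 1 from Subtype.ext h3, bd_one]; exact Nat.zero_le _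
  have h3 := bd_mul hE ((M.trG 1 ^ j)⁻¹ * M.lampG σ 0) (M.trG 1 ^ j)
  have h4 := bd_mul hE (M.trG 1 ^ j)⁻¹ (M.lampG σ 0)
  rw [bd_inv hE] at h4
  rw [e]
  nlinarith

theorem lower {κ : Type} (J : Finset κ) (q : St) (v : κ → Cfg) (h0 : ∀ ι k, M.B ≤ k → v ι k = 0)
    (hinj : Set.InjOn v J) (hacc : ∀ ι ∈ J, ∃ L, M.Run L q (v ι)) {Q R n : ℕ}
    (hQ : ∀ ι ∈ J, Q ≤ M.sm (v ι) ∧ M.sm (v ι) ≤ R) (hR : 0 < R) (hn : 128 * R ≤ n) {E : Set M.grp}
    (hE : IsFolner M.gensG n E) : 2 ^ (#J * Q) ≤ E.ncard ^ 2 := by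
  classical
  obtain ⟨hfin, hne, hE⟩ := isFolner_iff.1 hE
  choose L hL using fun ι : J => hacc ι ι.2
  choose ω h1 h2 using fun i : J × Fin Q => M.exists_hit (L i.1) q _ (i.2 : ℕ) (hL i.1)
  let w : J × Fin Q → List M.Let := fun i => (ω i).map fun c => (c, 0)
  have hw : ∀ i, (w i).map Prod.fst = ω i := fun i => by simp [w, Function.comp_def]
  have hb : ∀ C i, M.bit (M.heis 0 0 C (w i)) - M.bit (w i) = C (ω i) := fun C i => by
    rw [heis_apply, Pi.zero_apply, M.bit_fa _ _ _ (hw i ▸ h2 i), hw, add_sub_cancel_left]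
  let π : M.cen.subgroupOf M.grp →* (J × Fin Q → Multiplicative (ZMod 2)) :=
    MonoidHom.mk' (fun g i => Multiplicative.ofAdd (M.bit (g.1.1 (w i)) - M.bit (w i))) (by
      intro g g'
      obtain ⟨C, hC : g.1.1 = _⟩ := g.2
      obtain ⟨C', hC' : g'.1.1 = _⟩ := g'.2
      funext i
      show Multiplicative.ofAdd (M.bit ((g.1.1 * g'.1.1) _) - _) = _
      simp only [hC, hC', heis_mul, Pi.mul_apply, add_zero, mul_zero, hb, Pi.add_apply, ← ofAdd_add,
        add_comm])
  let g : J × Fin Q → M.grp := fun i => M.lampG none (i.2 : ℕ) *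
    M.lampG (some q) ((i.2 + M.sm (v i.1) : ℕ)) *
      (M.lampG none (i.2 : ℕ) * M.lampG (some q) ((i.2 + M.sm (v i.1) : ℕ)))
  have hg : ∀ i, (g i).1 = M.heis 0 0 (M.pf q (v i.1) (i.2 : ℕ)) := fun i => by
    have e : (((i.2 + M.sm (v i.1) : ℕ) : ℤ) - (i.2 : ℕ)) = M.sm (v i.1) := by push_cast; ring
    have := M.ind_mul q (i := (i.2 : ℕ)) (j := (i.2 + M.sm (v i.1) : ℕ))
      (by rw [e]; exact_mod_cast (M.sm_pos _).ne')
    rw [e, M.cfg_sm (h0 _)] at this
    simp only [g, lampG, Subgroup.coe_mul, lamp, heis_mul, zero_add, add_zero, mul_zero, two', this]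
  let c : J × Fin Q → M.cen.subgroupOf M.grp := fun i => ⟨g i, _, hg i⟩
  have hc : ∀ i, π (c i) = Pi.mulSingle i (Multiplicative.ofAdd 1) := fun i => by
    funext i'
    show Multiplicative.ofAdd (M.bit ((g i).1 (w i')) - _) = _
    rw [hg, hb, pf]
    by_cases hi : i' = i
    · subst hi
      rw [if_pos ⟨h2 _, h1 i' ▸ hL _⟩, Pi.mulSingle_eq_same]
    · rw [if_neg, Pi.mulSingle_eq_of_ne hi, ofAdd_zero]
      rintro ⟨a1, a2⟩
      have a3 := (M.hit_iff _ _ _ _ _ a2 a1).1 (h2 i')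
      rw [h1] at a2
      have a4 : i.1 = i'.1 := Subtype.ext (hinj i.1.2 i'.1.2 (funext fun k => by
        by_cases hk : k < M.B
        · exact M.run_inj _ _ _ _ _ a2 (hL _) k hk
        · rw [h0 _ _ (not_lt.1 hk), h0 _ _ (not_lt.1 hk)]))
      have a5 := Int.eq_zero_of_abs_lt_dvd ((Dvd.intro_left _ rfl).trans a3) (by
        have := (hQ _ i.1.2).1
        have := i.2.2
        have := i'.2.2
        exact abs_lt.2 ⟨by omega, by omega⟩)
      exact hi (Prod.ext a4.symm (Fin.ext (by omega)))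
  have hm : ∀ s ∈ M.gensG, bd E s ≤ E.ncard / (2 * n) := fun s hs =>
    (Nat.le_div_iff_mul_le (by omega)).2 (by have := hE s hs; nlinarith)
  have := prod_iso (M.cen.subgroupOf M.grp) π c c _ _ hc hc (V := 2) (by norm_num) (by
    intro S hS h
    rcases (Set.ncard_le_one_iff_eq hS).1 (Nat.lt_succ_iff.1 h) with rfl | ⟨x, rfl⟩
    · simp
    · have : bd {x} (Multiplicative.ofAdd (1 : ZMod 2)) = 1 := by
        rw [bd, Set.image_singleton, Set.sdiff_singleton_eq_self (by simp),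
          Set.ncard_singleton]
      simp [this]) hfin hne (fun i => by
    have b1 := M.bd_lamp hfin hm none i.2
    have b2 := M.bd_lamp hfin hm (some q) (i.2 + M.sm (v i.1))
    have b3 := bd_mul hfin (M.lampG none (i.2 : ℕ)) (M.lampG (some q) ((i.2 + M.sm (v i.1) : ℕ)))
    have b4 : bd E (c i) ≤ _ := bd_mul hfin _ _
    have b5 := Nat.div_mul_le_self E.ncard (2 * n)
    have b6 := hQ _ i.1.2
    have b7 := i.2.2
    generalize E.ncard / (2 * n) = m at *
    have b8 : (2 * (i.2 : ℕ) + 1) * m ≤ 2 * R * m := Nat.mul_le_mul_right _ (by omega)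
    have b9 : (2 * (i.2 + M.sm (v i.1)) + 1) * m ≤ 4 * R * m := Nat.mul_le_mul_right _ (by omega)
    have : 256 * R * m ≤ m * (2 * n) := by nlinarith
    nlinarith)
  simpa using this

end TM

lemma pr_mono : Monotone pr := Nat.nth_monotone Nat.infinite_setOfPred_prime

namespace TM

variable {Md St : Type} (M : TM Md St)

lemma sm_le {u v : Cfg} (h : ∀ k < M.B, u k ≤ v k) : M.sm u ≤ M.sm v :=
  prod_le_prod' fun k hk => Nat.pow_le_pow_right (pr_prime k).pos (h k (mem_range.1 hk))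

lemma sm_sg {r : ℕ} (hr : r < M.B) : M.sm (fun k => if k = r then 1 else 0) = pr r := by
  rw [sm, prod_eq_single r (fun k _ hk => by simp [hk]) fun h => absurd (mem_range.2 hr) h]
  simp

lemma run_ind {Φ : St → Cfg → Prop} (h : ∀ md v, (∀ k, M.B ≤ k → v k = 0) → M.tst md (M.vs v) →
    (M.act md = true ∨ Φ (M.tgt md) (M.stp md v)) → Φ (M.src md) v) (L : List Md) :
    ∀ s v, (∀ k, M.B ≤ k → v k = 0) → M.Run L s v → Φ s v := by
  induction L with
  | nil => exact fun _ _ _ h => h.elim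
  | cons md L ih =>
    rintro _ v hv ⟨rfl, h1, h2⟩
    exact h md v hv h1 (h2.imp_right (ih _ _ fun k hk => if_neg (not_lt.2 hk)))

def Alv (s : St) (v : Cfg) : Prop := ∃ L, M.Run L s v

lemma Alv.step {M : TM Md St} (md : Md) {v u : Cfg} (h : M.Alv (M.tgt md) u) (h1 : M.tst md (M.vs v))
    (h2 : M.stp md v = u) : M.Alv (M.src md) v :=
  ⟨md :: h.choose, rfl, h1, Or.inr (h2 ▸ h.choose_spec)⟩

end TM

def fw (P : Prog) : List Prog → Bool → Ins × List Prog
  | [], _ => (.nop, [P])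
  | .skip :: r, _ => (.nop, r)
  | .inc k :: r, _ => (.inc k, r)
  | .seq p q :: r, _ => (.nop, p :: q :: r)
  | .whl k p :: r, true => (.dec k, p :: .whl k p :: r)
  | .whl k _ :: r, false => (.zero k, r)

def br : List Prog → Cfg → Bool
  | .whl k _ :: _, v => decide (v k ≠ 0)
  | _, _ => true

def gs (P : Prog) (x : List Prog × Cfg) : List Prog × Cfg :=
  ((fw P x.1 (br x.1 x.2)).2, (fw P x.1 (br x.1 x.2)).1.stp x.2)

lemma ok_br (P : Prog) (c : List Prog) (v : Cfg) : (fw P c (br c v)).1.okC v := by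
  rcases c with _ | ⟨_ | _ | _ | ⟨k, p⟩, r⟩
  iterate 4 trivial
  by_cases h : v k = 0 <;> simp [br, h, fw, Ins.okC]

lemma gs_eq (P : Prog) (c : List Prog) (b : Bool) (v : Cfg) (h : (fw P c b).1.okC v) :
    gs P (c, v) = ((fw P c b).2, (fw P c b).1.stp v) := by
  rcases c with _ | ⟨_ | _ | _ | ⟨k, p⟩, r⟩
  iterate 4 rfl
  cases b <;> simp_all [br, gs, fw, Ins.okC]

lemma fw_conts (P : Prog) (b : Bool) (p : Prog) : ∀ r, ∀ c ∈ conts p r,
    (fw P c b).1.reg < p.bnd + 1 ∧ ((fw P c b).2 ∈ conts p r ∨ (fw P c b).2 = r) := by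
  induction p with
  | skip => intro r c hc; simp only [conts, List.mem_singleton] at hc; simp [hc, fw, Ins.reg]
  | inc k =>
    intro r c hc
    simp only [conts, List.mem_singleton] at hc
    simp [hc, fw, Ins.reg, Prog.bnd]
  | seq p q ihp ihq =>
    intro r c hc
    simp only [conts, List.mem_cons, List.mem_append, Prog.bnd] at hc ⊢
    rcases hc with rfl | hc | hc
    · exact ⟨by simp [fw, Ins.reg], Or.inl (Or.inr (Or.inl (self_mem_conts _ _)))⟩
    · obtain ⟨h1, h3 | h3⟩ := ihp _ c hc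
      · exact ⟨by omega, Or.inl (Or.inr (Or.inl h3))⟩
      · exact ⟨by omega, Or.inl (Or.inr (Or.inr (h3 ▸ self_mem_conts _ _)))⟩
    · obtain ⟨h1, h3⟩ := ihq _ c hc
      exact ⟨by omega, by tauto⟩
  | whl k p ih =>
    intro r c hc
    simp only [conts, List.mem_cons, Prog.bnd] at hc ⊢
    rcases hc with rfl | hc
    · cases b
      · exact ⟨by simp only [fw, Ins.reg]; omega, Or.inr rfl⟩
      · exact ⟨by simp only [fw, Ins.reg]; omega, Or.inl (Or.inr (self_mem_conts _ _))⟩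
    · obtain ⟨h1, h3⟩ := ih _ c hc
      exact ⟨by omega, by tauto⟩

lemma fw_mem (P : Prog) (b : Bool) {c : List Prog} (hc : c ∈ [] :: conts P []) :
    (fw P c b).1.reg < P.bnd + 1 ∧ (fw P c b).2 ∈ [] :: conts P [] := by
  rcases List.mem_cons.1 hc with rfl | hc
  · exact ⟨Nat.succ_pos _, List.mem_cons_of_mem _ (self_mem_conts _ _)⟩
  · exact (fw_conts P b P _ c hc).imp_right fun h => List.mem_cons.2 h.symm

lemma ev_gs (P : Prog) {p : Prog} {u u' : Cfg} (h : Ev p u u') : ∀ r, ∃ n,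
    (gs P)^[n] (p :: r, u) = (r, u') ∧ ∀ i < n, ((gs P)^[i] (p :: r, u)).1 ≠ [] := by
  have one : ∀ p r (u : Cfg), ∀ i < 1, ((gs P)^[i] (p :: r, u)).1 ≠ [] := fun p r u i hi => by
    obtain rfl : i = 0 := by omega
    simp
  have two : ∀ (p r u) (y z w : List Prog × Cfg), gs P (p :: r, u) = y →
      (∃ n, (gs P)^[n] y = z ∧ ∀ i < n, ((gs P)^[i] y).1 ≠ []) →
      (∃ n, (gs P)^[n] z = w ∧ ∀ i < n, ((gs P)^[i] z).1 ≠ []) →
      ∃ n, (gs P)^[n] (p :: r, u) = w ∧ ∀ i < n, ((gs P)^[i] (p :: r, u)).1 ≠ [] := by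
    rintro p r u _ _ _ rfl ⟨a, rfl, ha⟩ ⟨b, rfl, hb⟩
    refine ⟨b + a + 1, by rw [iterate_succ_apply, iterate_add_apply], fun i hi => ?_⟩
    rcases i with _ | i
    · simp
    · rw [iterate_succ_apply]
      by_cases h : i < a
      · exact ha i h
      · obtain ⟨j, rfl⟩ : ∃ j, i = j + a := ⟨i - a, by omega⟩
        rw [iterate_add_apply]
        exact hb j (by omega)
  induction h with
  | skip => exact fun r => ⟨1, rfl, one _ _ _⟩
  | inc => exact fun r => ⟨1, rfl, one _ _ _⟩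
  | seq _ _ ih1 ih2 => exact fun r => two _ _ _ _ _ _ rfl (ih1 _) (ih2 _)
  | whl0 p h0 => exact fun r => ⟨1, gs_eq P _ false _ h0, one _ _ _⟩
  | whl1 h0 _ _ ih1 ih2 => exact fun r => two _ _ _ _ _ _ (gs_eq P _ true _ h0) (ih1 _) (ih2 _)

lemma exists_tau {P : Prog} {W : ℕ → Cfg} (h0 : W 0 = 0) (hW : ∀ n, Ev P (W n) (W (n + 1))) :
    ∃ τ : ℕ → ℕ, (∀ n, (gs P)^[τ n] ([], 0) = ([], W n)) ∧
      ∀ t, ((gs P)^[t] ([], 0)).1 = [] → ∃ n, t = τ n := by
  choose len h1 h2 using fun n => ev_gs P (hW n) []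
  let τ : ℕ → ℕ := fun n => Nat.rec 0 (fun n t => len n + 1 + t) n
  have h3 : ∀ n, (gs P)^[τ n] ([], 0) = ([], W n) := fun n => by
    induction n with
    | zero => rw [h0]; rfl
    | succ n ih =>
      show (gs P)^[len n + 1 + τ n] _ = _
      rw [iterate_add_apply, ih, iterate_succ_apply]
      exact h1 n
  have h4 : ∀ t, ∃ n, ∃ i ≤ len n, t = i + τ n := fun t => by
    induction t with
    | zero => exact ⟨0, 0, Nat.zero_le _, rfl⟩
    | succ t ih =>
      obtain ⟨n, i, hi, rfl⟩ := ih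
      by_cases h : i < len n
      · exact ⟨n, i + 1, h, by omega⟩
      · exact ⟨n + 1, 0, Nat.zero_le _, show _ = 0 + (len n + 1 + τ n) by omega⟩
  refine ⟨τ, h3, fun t ht => ?_⟩
  obtain ⟨n, i, hi, rfl⟩ := h4 t
  rcases i with _ | i
  · exact ⟨n, zero_add _⟩
  · rw [iterate_add_apply, h3, iterate_succ_apply] at ht
    exact absurd ht (h2 n i hi)

def pad (b : ℕ) (u : Cfg) (g : ℕ) : Cfg := fun k => if k < b then u k else if k < b + 2 then g else 0

def tk (w : Cfg) (r x : ℕ) : Cfg := fun k => if k < r then w k else if k = r then x else 0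

def re (b : ℕ) : Ins → ℕ → ℕ
  | .inc j, k => if b ≤ k ∨ k = j then 0 else 1
  | .dec j, k => if b ≤ k then 0 else if k = j then 2 else 1
  | _, k => if b ≤ k then 0 else 1

def rt : Ins → Finset ℕ → Prop
  | .inc j, S => j ∈ S
  | .zero j, S => j ∉ S
  | _, _ => True

abbrev Mo (P : Prog) (b : ℕ) :=
  (Fin (b + 2) × Bool) ⊕ ({c // c ∈ [] :: conts P []} × Bool) ⊕ Option Bool

def mach (P : Prog) (b m : ℕ) : TM (Mo P b) (ℕ ⊕ List Prog) where
  B := b + 2
  src
    | .inl (r, _) => .inl r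
    | .inr (.inl (c, β)) => .inr (fw P c β).2
    | .inr (.inr none) => .inr []
    | .inr (.inr (some true)) => .inl m
    | .inr (.inr (some false)) => .inl (b + 1)
  tgt
    | .inl (r, true) => .inl r
    | .inl (r, false) => .inl (r + 1)
    | .inr (.inl (c, _)) => .inr c
    | .inr (.inr (some true)) => .inl m
    | .inr (.inr _) => .inr []
  e
    | .inl (r, true) => fun k => if k = r then 2 else 1
    | .inr (.inl (c, β)) => re b (fw P c β).1
    | .inr (.inr (some true)) => fun k => if k = m then 0 else 1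
    | _ => fun _ => 1
  tst
    | .inl (r, true) => fun _ => True
    | .inl (r, false) => fun S => m ≤ r ∧ ∀ k ∈ S, k ≤ r
    | .inr (.inl (c, β)) => fun S => rt (fw P c β).1 S ∧ b ∈ S ∧ b + 1 ∈ S
    | .inr (.inr none) => fun S => S = ∅
    | .inr (.inr (some _)) => fun S => m ∈ S
  act
    | .inr (.inr none) => true
    | _ => false
  dec := by
    rintro (⟨r, _ | _⟩ | ⟨c, β⟩ | _ | _ | _) S k h hk he
    any_goals simp at he
    · split_ifs at he
    · have hb : b ≤ k → k ∈ S := fun hb => by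
        obtain rfl | rfl : k = b ∨ k = b + 1 := by omega
        exacts [h.2.1, h.2.2]
      have h1 := h.1
      generalize (fw P c β).1 = i at *
      cases i <;> simp only [re, rt] at he h1 <;> split_ifs at he with h2 <;>
        first | omega | exact hb h2 | exact h2.elim hb (· ▸ h1)
    · exact he ▸ h
  acc := by
    rintro (⟨r, _ | _⟩ | ⟨c, β⟩ | _ | _ | _) S h1 h <;> first | exact h | simp at h1

lemma rev {b : ℕ} {i : Ins} (hi : i.reg < b) {u v : Cfg} {g : ℕ} (hv : ∀ k, b + 2 ≤ k → v k = 0)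
    {S : Finset ℕ} (hS : ∀ k, k ∈ S ↔ k < b + 2 ∧ v k ≠ 0) :
    ((rt i S ∧ b ∈ S ∧ b + 1 ∈ S) ∧
      (fun k => if k < b + 2 then v k + re b i k - 1 else 0) = pad b u g) ↔
      (i.okC u ∧ v = pad b (i.stp u) (g + 1)) := by
  have e1 : b < b + 2 := by omega
  have e2 : b + 1 < b + 2 := by omega
  simp only [funext_iff, pad]
  refine ⟨fun ⟨⟨h1, h2, h3⟩, h⟩ => ?_, fun ⟨h1, h⟩ => ?_⟩
  · have h4 := h i.reg
    rw [hS] at h2 h3
    cases i <;> simp only [rt, re, Ins.okC, Ins.stp, Ins.reg, update_apply, hS] at * <;>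
    refine ⟨by first | trivial | grind, fun k => ?_⟩ <;> have := h k <;> have := hv k <;> grind
  · have h4 := h i.reg
    have h5 := h b
    have h6 := h (b + 1)
    cases i <;> simp only [rt, re, Ins.okC, Ins.stp, Ins.reg, update_apply, hS] at * <;>
    refine ⟨by grind, fun k => ?_⟩ <;> have := h k <;> grind

theorem exists_tm {P : Prog} {W : ℕ → Cfg} (h0 : W 0 = 0) (hW : ∀ n, Ev P (W n) (W (n + 1)))
    (m : ℕ) : ∃ (Md St : Type) (_ : Fintype Md) (M : TM Md St) (q : St), m < M.B ∧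
      (∀ n x, W n m ≠ 0 → M.Alv q (tk (W n) m x)) ∧
      ∃ s : Option (ℕ × Fin M.B) → ℕ → Cfg, (∀ ι x, 2 * M.sm (s ι x) ≤ M.sm (s ι (x + 1))) ∧
        ∀ q v L, (∀ k, M.B ≤ k → v k = 0) → M.Run L q v → ∃ x, v = s none x ∨
          ∃ n r, W n m ≠ 0 ∧ v = s (some (n, r)) x ∧ M.sm (tk (W n) m 0) ≤ M.sm v := by
  classical
  obtain ⟨τ, t1, t2⟩ := exists_tau h0 hW
  obtain ⟨b, hb, hm⟩ : ∃ b, P.bnd + 1 ≤ b ∧ m < b := ⟨P.bnd + m + 1, by omega, by omega⟩
  let O : ℕ → List Prog × Cfg := fun t => (gs P)^[t] ([], 0)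
  have hO : ∀ t, O (t + 1) = gs P (O t) := fun t => iterate_succ_apply' _ _ _
  have hC : ∀ t, (O t).1 ∈ [] :: conts P [] := fun t => by
    induction t with
    | zero => exact List.mem_cons_self
    | succ t ih => rw [hO]; exact (fw_mem P _ ih).2
  let M := mach P b m
  have hB : M.B = b + 2 := rfl
  have hr : ∀ t, (fw P (O t).1 (br (O t).1 (O t).2)).1.reg < b := fun t =>
    (fw_mem P _ (hC t)).1.trans_le hb
  have a1 : ∀ t, M.Alv (.inr (O t).1) (pad b (O t).2 t) := fun t => by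
    induction t with
    | zero =>
      refine ⟨[.inr (.inr none)], rfl, ?_, Or.inl rfl⟩
      refine eq_empty_of_forall_notMem fun k hk => (M.mem_vs.1 hk).2 ?_
      simp [pad, O]
    | succ t ih =>
      have := (rev (hr t) (u := (O t).2) (g := t) (fun k hk => by clear * - hk; simp only [pad]; grind)
        fun k => M.mem_vs).2 ⟨ok_br _ _ _, rfl⟩
      rw [hO]
      exact TM.Alv.step (M := M) (.inr (.inl (⟨_, hC t⟩, br (O t).1 (O t).2))) ih this.1 this.2
  let E : ℕ → Cfg := fun n => pad b (W n) (τ n)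
  have hE : ∀ n x, tk (E n) m x = tk (W n) m x := fun n x => funext fun k => by
    clear * - hm; simp only [tk, E, pad]; grind
  refine ⟨_, _, inferInstance, M, .inl m, by omega, fun n x hn => ?_,
    fun ι x => ι.elim (pad b (O x).2 x) fun p => tk (E p.1) p.2 x, fun ι x => ?_, fun q v L hv h => ?_⟩
  · have up : ∀ r (hr : r < b + 2) y, M.Alv (.inl r) (tk (E n) r y) →
        M.Alv (.inl r) (tk (E n) r 0) := fun r hr y => by
      induction y with
      | zero => exact id
      | succ y ih =>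
        refine fun h => ih (TM.Alv.step (M := M) (.inl (⟨r, hr⟩, true)) h trivial (funext fun k => ?_))
        clear * - hr; simp only [TM.stp, tk, M, mach]; grind
    have a2 : ∀ d r, r + d = b + 1 → m ≤ r → M.Alv (.inl r) (tk (E n) r 0) := fun d => by
      induction d with
      | zero =>
        rintro r (rfl : r = b + 1) _
        have := a1 (τ n)
        rw [show O (τ n) = _ from t1 n] at this
        refine up _ (by omega) (τ n) (TM.Alv.step (M := M) (.inr (.inr (some false))) this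
          (M.mem_vs.2 ⟨by omega, ?_⟩) (funext fun k => ?_))
        · clear * - hm hn; simp only [tk, E, pad]; grind
        · clear * - hm; simp only [TM.stp, tk, M, mach, E, pad]; grind
      | succ d ih =>
        intro r h1 h2
        refine up r (by omega) (E n r) (TM.Alv.step (M := M) (.inl (⟨r, by omega⟩, false))
          (ih (r + 1) (by omega) (by omega)) ⟨h2, fun k hk => ?_⟩ (funext fun k => ?_))
        · have := (M.mem_vs.1 hk).2
          clear * - this; simp only [tk] at this ⊢; grind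
        · clear * - h1; simp only [TM.stp, tk, M, mach]; grind
    rw [← hE]
    induction x with
    | zero => exact a2 (b + 1 - m) m (by omega) le_rfl
    | succ x ih =>
      refine TM.Alv.step (M := M) (.inr (.inr (some true))) ih (M.mem_vs.2 ⟨by omega, by simp [tk]⟩)
        (funext fun k => ?_)
      clear * - hm; simp only [TM.stp, tk, M, mach]; grind
  · have p2 := fun k => (pr_prime k).two_le
    cases ι with
    | none =>
      have h1 := hr x
      have h2 := M.sm_le (u := fun k => pad b (O x).2 x k +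
          ((if k = b then 1 else 0) + if k = b + 1 then 1 else 0))
        (v := fun k => pad b (O (x + 1)).2 (x + 1) k +
          if k = (fw P (O x).1 (br (O x).1 (O x).2)).1.reg then 1 else 0) fun k hk => by
        rw [hO, gs]
        generalize (fw P (O x).1 (br (O x).1 (O x).2)).1 = i at *
        clear * - h1 hk hB
        cases i <;> simp only [pad, Ins.stp, Ins.reg, update_apply] at * <;> grind
      rw [← M.sm_add, ← M.sm_add, ← M.sm_add, M.sm_sg (by omega), M.sm_sg (by omega),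
        M.sm_sg (by omega)] at h2
      have h3 := pr_mono h1.le
      have h4 := p2 (b + 1)
      have h5 := p2 b
      show 2 * M.sm (pad b (O x).2 x) ≤ M.sm (pad b (O (x + 1)).2 (x + 1))
      refine Nat.le_of_mul_le_mul_right (le_trans ?_ (h2.trans (Nat.mul_le_mul_left _ h3))) (by omega)
      rw [mul_comm 2, mul_assoc, mul_comm 2]
      exact Nat.mul_le_mul_left _ (Nat.mul_le_mul_left _ h4)
    | some p =>
      have h2 := M.sm_le (u := fun k => tk (E p.1) p.2 x k + if k = p.2 then 1 else 0)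
        (v := tk (E p.1) p.2 (x + 1)) fun k hk => by clear * -; simp only [tk]; grind
      rw [← M.sm_add, M.sm_sg p.2.2] at h2
      show 2 * M.sm (tk (E p.1) p.2 x) ≤ M.sm (tk (E p.1) p.2 (x + 1))
      rw [mul_comm]
      exact (Nat.mul_le_mul_left _ (p2 _)).trans h2
  · have := M.run_ind (Φ := Sum.elim (fun r v => m ≤ r ∧ r < b + 2 ∧ ∃ n x, W n m ≠ 0 ∧
      v = tk (E n) r x) fun c v => ∃ t, (O t).1 = c ∧ v = pad b (O t).2 t) ?_ L q v hv h
    · rcases q with r | c
      · obtain ⟨h1, h2, n, x, h3, h4⟩ := this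
        refine ⟨x, Or.inr ⟨n, ⟨r, h2⟩, h3, h4, M.sm_le fun k _ => ?_⟩⟩
        rw [← hE, h4]
        clear * - h1; simp only [tk]; grind
      · obtain ⟨t, -, h1⟩ := this
        exact ⟨t, Or.inl h1⟩
    rintro (⟨r, _ | _⟩ | ⟨c, β⟩ | _ | _ | _) v hv h1 h2
    · obtain ⟨-, -, n, x, h3, h4⟩ := h2.resolve_left Bool.false_ne_true
      refine ⟨h1.1, r.2, n, E n r, h3, funext fun k => ?_⟩
      have c1 := congrFun h4 k
      have c2 := hv k
      have c3 := fun h => h1.2 k (M.mem_vs.2 h)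
      clear * - c1 c2 c3; simp only [TM.stp, tk, M, mach] at *; grind
    · obtain ⟨h5, -, n, x, h3, h4⟩ := h2.resolve_left Bool.false_ne_true
      refine ⟨h5, r.2, n, x - 1, h3, funext fun k => ?_⟩
      have c1 := congrFun h4 k
      have c2 := hv k
      clear * - c1 c2; simp only [TM.stp, tk, M, mach] at *; grind
    · obtain ⟨t, h3, h4⟩ := h2.resolve_left Bool.false_ne_true
      obtain ⟨h5, h6⟩ := (rev ((fw_mem P β c.2).1.trans_le hb) hv fun k => M.mem_vs).1 ⟨h1, h4⟩
      have h7 : O (t + 1) = _ := (hO t).trans ((congrArg (gs P)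
        (show O t = (c.1, (O t).2) from Prod.ext h3 rfl)).trans (gs_eq P c β _ h5))
      exact ⟨t + 1, by rw [h7], by rw [h7]; exact h6⟩
    · refine ⟨0, rfl, funext fun k => ?_⟩
      have h3 : k ∉ M.vs v := by rw [show M.vs v = ∅ from h1]; simp
      have := hv k
      rw [M.mem_vs] at h3
      clear * - h3 this; simp only [pad, O, iterate_zero, id, Pi.zero_apply]; grind
    · obtain ⟨t, h3, h4⟩ := h2.resolve_left Bool.false_ne_true
      obtain ⟨n, rfl⟩ := t2 t h3
      rw [show O (τ n) = _ from t1 n] at h4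
      have h5 := (M.mem_vs.1 h1).2
      refine ⟨by omega, by omega, n, τ n, ?_, funext fun k => ?_⟩
      · have := congrFun h4 m
        clear * - this h5 hm; simp only [TM.stp, pad, M, mach] at *; grind
      · have c1 := congrFun h4 k
        have c2 := hv k
        have c3 := congrFun h4 (b + 1)
        clear * - c1 c2 c3; simp only [TM.stp, tk, E, pad, M, mach] at *; grind
    · obtain ⟨-, h5, n, x, h3, h4⟩ := h2.resolve_left Bool.false_ne_true
      refine ⟨le_rfl, h5, n, x + 1, h3, funext fun k => ?_⟩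
      have c1 := congrFun h4 k
      have c2 := hv k
      have c3 := (M.mem_vs.1 h1).2
      clear * - c1 c2 c3 hm; simp only [TM.stp, tk, M, mach] at *; grind

lemma exists_prog {F : ℕ → ℕ → ℕ} (hF : ∀ k, Primrec (F k)) (m : ℕ) :
    ∃ (P : Prog) (W : ℕ → Cfg), W 0 = 0 ∧ (∀ n, Ev P (W n) (W (n + 1))) ∧
      ∀ n, ∀ k ≤ m, W (n + 1) k = F k n := by
  have key : ∀ i ≤ m + 1, ∃ P, ∀ v : Cfg, (∀ k, m + 2 ≤ k → v k = 0) →
      Ev P v fun k => if k < i then F k (v (m + 1)) else v k := fun i => by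
    induction i with
    | zero => exact fun _ => ⟨.skip, fun v _ => (Ev.skip v).cast rfl (by simp)⟩
    | succ i ih =>
      intro hi
      obtain ⟨P, hP⟩ := ih (by omega)
      obtain ⟨P', hP'⟩ := comp_of_primrec (Nat.Primrec'.of_prim (n := 1)
        ((hF i).comp Primrec.vector_head)) (fun _ => m + 1) i (m + 2) (by omega) (by omega) (by omega)
      refine ⟨.seq P (.seq (.whl i .skip) P'), fun v hv => ((hP v hv).seq ((ev_clr _ _).seq
        (hP' _ fun k hk => ?_))).cast rfl (funext fun k => ?_)⟩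
      · have := hv k hk
        simp only [update_apply]; grind
      · simp only [update_apply, List.Vector.head_ofFn]; grind
  obtain ⟨P, hP⟩ := key _ le_rfl
  let W : ℕ → Cfg := fun n k => if k = m + 1 then n else if k ≤ m ∧ n ≠ 0 then F k (n - 1) else 0
  refine ⟨.seq P (.inc (m + 1)), W, funext fun k => by simp [W], fun n =>
    ((hP _ fun k hk => ?_).seq (.inc _ _)).cast rfl (funext fun k => ?_), fun n k hk => ?_⟩
  · simp only [W]; grind
  · simp only [W, update_apply]; grind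
  · simp only [W]; grind

lemma exists_first {A : ℕ × ℕ → Prop} (h : REPred A) : ∃ G : (ℕ × ℕ) × ℕ → Prop, PrimrecPred G ∧
    (∀ p, A p ↔ ∃ w, G (p, w)) ∧ ∀ p w w', G (p, w) → G (p, w') → w = w' := by
  classical
  obtain ⟨c, hc⟩ := Nat.Partrec.Code.exists_code.1 h
  let T : (ℕ × ℕ) × ℕ → Prop := fun p => Nat.Partrec.Code.evaln p.2 c (Encodable.encode p.1) ≠ none
  have hT : PrimrecPred T := (Primrec.eq.comp (Nat.Partrec.Code.primrec_evaln.comp
    ((Primrec.snd.pair (Primrec.const c)).pair (Primrec.encode.comp Primrec.fst)))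
      (Primrec.const none)).not
  have mono : ∀ p w w', w ≤ w' → T (p, w) → T (p, w') := fun p w w' h h1 => by
    obtain ⟨x, hx⟩ := Option.ne_none_iff_exists'.1 h1
    exact Option.ne_none_iff_exists'.2 ⟨x, Nat.Partrec.Code.evaln_mono h hx⟩
  refine ⟨fun p => T (p.1, p.2 + 1) ∧ ¬ T p,
    (hT.comp (Primrec.fst.pair (Primrec.succ.comp Primrec.snd))).and hT.not, fun p => ?_,
    fun p w w' h1 h2 => ?_⟩
  · have h1 : A p ↔ ∃ x, x ∈ c.eval (Encodable.encode p) := by
      rw [hc]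
      simp only [Encodable.encodek, Part.coe_some, Part.bind_some]
      simp
    have h2 : A p ↔ ∃ w, T (p, w) := by
      simp only [h1, Nat.Partrec.Code.evaln_complete, T, Option.ne_none_iff_exists']
      exact exists_comm
    rw [h2]
    refine ⟨fun h3 => ?_, fun ⟨w, h3⟩ => ⟨_, h3.1⟩⟩
    have h4 := Nat.find_spec h3
    rcases e : Nat.find h3 with _ | w
    · simp [e, T, Nat.Partrec.Code.evaln] at h4
    · exact ⟨w, e ▸ h4, Nat.find_min h3 (by omega)⟩
  · by_contra h3
    rcases Nat.lt_or_gt_of_ne h3 with h3 | h3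
    exacts [h2.2 (mono _ _ _ h3 h1.1), h1.2 (mono _ _ _ h3 h2.1)]

lemma digits_inj {b : ℕ} (D : ℕ) : ∀ x y, x < b ^ D → y < b ^ D →
    (∀ i < D, x / b ^ i % b = y / b ^ i % b) → x = y := by
  induction D with
  | zero => intro x y; simp only [pow_zero]; omega
  | succ D ih =>
    intro x y hx hy h
    have h0 := h 0 (by omega)
    simp only [pow_zero, Nat.div_one] at h0
    rw [← Nat.div_add_mod x b, ← Nat.div_add_mod y b, h0, ih (x / b) (y / b)
      (Nat.div_lt_of_lt_mul (by rwa [← pow_succ'])) (Nat.div_lt_of_lt_mul (by rwa [← pow_succ']))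
      fun i hi => by simpa only [Nat.div_div_eq_div_mul, ← pow_succ'] using h (i + 1) (by omega)]

lemma exists_events (D : ℕ) {δ : ℕ → ℕ} (hD : ∀ j, δ j ≤ (j + 3) ^ D)
    (hc : REPred fun p : ℕ × ℕ => p.2 < δ p.1) :
    ∃ (F : ℕ → ℕ → ℕ) (m J : ℕ) (ev : ℕ → ℕ → ℕ), (∀ k, Primrec (F k)) ∧ 0 < J ∧
      (∀ n, F m n ≠ 0 → ∃ j i, i < δ j ∧ n = ev j i) ∧
      (∀ j i, i < δ j → F m (ev j i) ≠ 0 ∧ 2 ^ (j + J) ≤ ∏ k ∈ range m, pr k ^ F k (ev j i) ∧
        ∏ k ∈ range m, pr k ^ F k (ev j i) < 2 ^ (j + J + 1)) ∧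
      ∀ j i j' i', i < δ j → i' < δ j' → (∀ k < m, F k (ev j i) = F k (ev j' i')) →
        j = j' ∧ i = i' := by
  classical
  obtain ⟨G, g1, g2, g3⟩ := exists_first hc
  obtain ⟨c, hc, c0⟩ : ∃ c, ∏ k ∈ range (D + 1), pr (k + 1) ≤ 2 ^ c ∧ 0 < c :=
    ⟨_ + 1, Nat.lt_two_pow_self.le.trans (Nat.pow_le_pow_right (by omega) (Nat.le_succ _)), by omega⟩
  obtain ⟨J, hJ⟩ : ∃ J, J = c ^ (D + 1) + 3 := ⟨_, rfl⟩
  let dg : ℕ → ℕ → ℕ → ℕ := fun j i k => i / ((j + J) / c + 1) ^ k % ((j + J) / c + 1)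
  let F0 : ℕ → ℕ → ℕ := fun k n => if k = 0 then n.unpair.2.unpair.2 else
    dg n.unpair.1.unpair.1 n.unpair.1.unpair.2 (k - 1)
  let th : ℕ → ℕ := fun n => ∏ k ∈ range (D + 2), pr k ^ F0 k n
  let fl : ℕ → Prop := fun n => G (n.unpair.1.unpair, n.unpair.2.unpair.1) ∧
    2 ^ (n.unpair.1.unpair.1 + J) ≤ th n ∧ th n < 2 ^ (n.unpair.1.unpair.1 + J + 1)
  have pw : Primrec₂ fun a b : ℕ => a ^ b := Primrec₂.unpaired'.1 Nat.Primrec.pow
  have u1 : Primrec fun n : ℕ => n.unpair.1 := Primrec.fst.comp Primrec.unpair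
  have u2 : Primrec fun n : ℕ => n.unpair.2 := Primrec.snd.comp Primrec.unpair
  have u3 := Primrec.nat_add.comp (u1.comp u1) (Primrec.const J)
  have u4 := Primrec.succ.comp (Primrec.nat_div.comp u3 (Primrec.const c))
  have p0 : ∀ k, Primrec (F0 k) := fun k => by
    by_cases h : k = 0 <;> simp only [F0, h, if_true, if_false]
    · exact u2.comp u2
    · exact Primrec.nat_mod.comp (Primrec.nat_div.comp (u2.comp u1)
        (pw.comp u4 (Primrec.const _))) u4
  have p1 : ∀ d, Primrec fun n => ∏ k ∈ range d, pr k ^ F0 k n := fun d => by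
    induction d with
    | zero => exact Primrec.const 1
    | succ d ih =>
      simp only [prod_range_succ]
      exact Primrec.nat_mul.comp ih (pw.comp (Primrec.const _) (p0 d))
  have p2 : PrimrecPred fl := (g1.comp ((Primrec.unpair.comp u1).pair (u1.comp u2))).and
    ((Primrec.nat_le.comp (pw.comp (Primrec.const 2) u3) (p1 _)).and
      (Primrec.nat_lt.comp (p1 _) (pw.comp (Primrec.const 2) (Primrec.succ.comp u3))))
  let Q : ℕ → ℕ → ℕ := fun j i => ∏ k ∈ range (D + 1), pr (k + 1) ^ dg j i k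
  have hth : ∀ n, th n = Q n.unpair.1.unpair.1 n.unpair.1.unpair.2 * 2 ^ n.unpair.2.unpair.2 :=
    fun n => by simp [th, Q, F0, prod_range_succ' _ (D + 1), pr, Nat.nth_prime_zero_eq_two]
  have Q0 : ∀ j i, 0 < Q j i := fun j i => prod_pos fun k _ => pow_pos (pr_prime _).pos _
  have two : ∀ {x a b : ℕ}, 2 ^ a ≤ x → x < 2 ^ (b + 1) → a ≤ b := fun h1 h2 =>
    Nat.lt_succ_iff.1 ((Nat.pow_lt_pow_iff_right (by norm_num)).1 (h1.trans_lt h2))
  have ex : ∀ j i, ∃ n, i < δ j → n.unpair.1.unpair = (j, i) ∧ fl n := fun j i => by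
    by_cases h : i < δ j
    · obtain ⟨w, hw⟩ := (g2 (j, i)).1 h
      have h1 : Q j i ≤ 2 ^ (j + J) := by
        refine (prod_le_prod' fun k _ => Nat.pow_le_pow_right (pr_prime _).pos
          (Nat.lt_succ_iff.1 (Nat.mod_lt _ (Nat.succ_pos _)))).trans ?_
        rw [prod_pow]
        refine (Nat.pow_le_pow_left hc _).trans ?_
        rw [← pow_mul]
        exact Nat.pow_le_pow_right (by omega) (Nat.mul_div_le _ _)
      have h2 := Nat.pow_log_le_self 2 (Q0 j i).ne'
      have h3 := Nat.lt_pow_succ_log_self (b := 2) (by norm_num) (Q j i)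
      obtain ⟨a, ha⟩ := Nat.exists_eq_add_of_le (two h2 (h1.trans_lt (Nat.pow_lt_pow_succ (by omega))))
      refine ⟨Nat.pair (Nat.pair j i) (Nat.pair w a), fun _ => ⟨by simp, ?_⟩⟩
      simp only [fl, hth, Nat.unpair_pair, ha]
      refine ⟨hw, ?_, ?_⟩
      · rw [pow_add]; gcongr
      · rw [add_right_comm, pow_add]; gcongr
    · exact ⟨0, fun h' => absurd h' h⟩
  choose ev hev using ex
  have hF : ∀ n, ∏ k ∈ range (D + 2), pr k ^ (if k = D + 2 then if fl n then 1 else 0 else F0 k n) =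
      th n := fun n => prod_congr rfl fun k hk => by rw [if_neg (mem_range.1 hk).ne]
  refine ⟨fun k n => if k = D + 2 then if fl n then 1 else 0 else F0 k n, D + 2, J, ev, fun k => ?_,
    by omega, fun n hn => ?_, fun j i h => ?_, fun j i j' i' h h' e => ?_⟩
  · by_cases h : k = D + 2 <;> simp only [h, if_true, if_false]
    exacts [Primrec.ite p2 (Primrec.const 1) (Primrec.const 0), p0 k]
  · have h1 : fl n := by simpa using hn
    have h2 := (g2 _).2 ⟨_, h1.1⟩
    obtain ⟨h3, h4⟩ := hev _ _ h2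
    refine ⟨_, _, h2, ?_⟩
    generalize ev _ _ = n' at *
    simp only [fl, hth, h3] at h1 h4
    have h5 := g3 _ _ _ h1.1 h4.1
    have h6 : ∀ {q a a' s : ℕ}, 0 < q → 2 ^ s ≤ q * 2 ^ a → q * 2 ^ a' < 2 ^ (s + 1) → a' ≤ a :=
      fun hq h h' => Nat.lt_succ_iff.1 ((Nat.pow_lt_pow_iff_right (a := 2) (by norm_num)).1
        (Nat.lt_of_mul_lt_mul_left (h'.trans_le (by rw [pow_succ, pow_succ, ← mul_assoc]; omega))))
    have h7 := le_antisymm (h6 (Q0 _ _) h4.2.1 h1.2.2) (h6 (Q0 _ _) h1.2.1 h4.2.2)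
    exact Nat.pairEquiv.symm.injective (Prod.ext (Nat.pairEquiv.symm.injective h3.symm)
      (Nat.pairEquiv.symm.injective (Prod.ext h5 h7)))
  · obtain ⟨h1, h2⟩ := hev j i h
    have h3 := h2.2
    rw [h1] at h3
    exact ⟨by simp [h2], by rwa [hF]⟩
  · obtain ⟨h1, -, h2⟩ := hev j i h
    obtain ⟨h1', -, h2'⟩ := hev j' i' h'
    have e0 : ∀ k < D + 2, F0 k (ev j i) = F0 k (ev j' i') := fun k hk => by
      simpa only [hk.ne, if_false] using e k hk
    have e1 : th (ev j i) = th (ev j' i') := prod_congr rfl fun k hk => by rw [e0 k (mem_range.1 hk)]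
    rw [h1, e1] at h2
    rw [h1'] at h2'
    obtain rfl : j = j' := by have := two h2.1 h2'.2; have := two h2'.1 h2.2; simp only at *; omega
    have hb : δ j ≤ ((j + J) / c + 1) ^ (D + 1) := by
      refine (hD j).trans (Nat.le_of_mul_le_mul_left ?_ (pow_pos c0 (D + 1)))
      rw [← mul_pow]
      refine le_trans ?_ (Nat.pow_le_pow_left (Nat.lt_mul_div_succ (j + J) c0).le _)
      rw [pow_succ' (j + J)]
      gcongr <;> omega
    refine ⟨rfl, digits_inj (D + 1) _ _ (h.trans_le hb) (h'.trans_le hb) fun k hk => ?_⟩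
    simpa [F0, h1, h1'] using e0 (k + 1) (by omega)

lemma pq_refl (f : ℕ → ℕ) : Preceq f f := ⟨1, one_pos, fun n _ => by simp⟩

lemma pq_trans {f g h : ℕ → ℕ} : Preceq f g → Preceq g h → Preceq f h := by
  rintro ⟨a, a0, ha⟩ ⟨b, b0, hb⟩
  refine ⟨a * b, Nat.mul_pos a0 b0, fun n hn => (ha n hn).trans ?_⟩
  rw [mul_assoc, mul_comm a b, mul_assoc b]
  exact Nat.mul_le_mul_left _ (hb _ (Nat.mul_pos a0 hn))

theorem exists_group (D : ℕ) {δ : ℕ → ℕ} (hD : ∀ j, δ j ≤ (j + 3) ^ D)
    (hc : REPred fun p : ℕ × ℕ => p.2 < δ p.1) :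
    ∃ G : ℕ → ℕ, IsSelfSimilarFolnerType G ∧ ∃ c, 0 < c ∧
      (∀ n L, 2 ^ L ≤ 2 * n → 2 ^ (n * ∑ j ∈ range L, δ j) ≤ G (c * n)) ∧
      ∀ n, 0 < n → G n ≤ 2 ^ (c * n * (1 + ∑ j ∈ range (Nat.log 2 (c * n)), δ j)) := by
  classical
  obtain ⟨F, m, J, ev, hF, J0, e1, e2, e3⟩ := exists_events D hD hc
  obtain ⟨P, W, w0, w1, w2⟩ := exists_prog hF m
  obtain ⟨Md, St, _, M, q, hm, hA, s, hs, hcov⟩ := exists_tm w0 w1 m
  have hsm : ∀ n x, M.sm (tk (W (n + 1)) m x) = (∏ k ∈ range m, pr k ^ F k n) * pr m ^ x :=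
    fun n x => by
      rw [TM.sm, ← prod_subset (s₁ := range (m + 1)) (range_subset_range.2 hm) fun k _ hk => by
        rw [tk, if_neg (by simp at hk; omega), if_neg (by simp at hk; omega), pow_zero],
        prod_range_succ, tk, if_neg (lt_irrefl _), if_pos rfl]
      congr 1
      exact prod_congr rfl fun k hk => by
        rw [tk, if_pos (mem_range.1 hk), w2 _ _ (mem_range.1 hk).le]
  let S : ℕ → Finset (Σ _ : ℕ, ℕ) := fun L => (range L).sigma fun j => range (δ j)
  have hS : ∀ L, #(S L) = ∑ j ∈ range L, δ j := fun L => by simp [S]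
  let I : ℕ → Finset (Option (ℕ × Fin M.B)) := fun R => insert none ((S (Nat.log 2 R) ×ˢ univ).image
    fun p => some (ev p.1.1 p.1.2 + 1, p.2))
  have hup := fun n => M.upper n _ rfl (I (2 * #M.gensG * n)) s hs fun q v L hv h hR => by
    obtain ⟨x, h1 | ⟨k, r, h1, h2, h3⟩⟩ := hcov q v L hv h
    · exact ⟨none, mem_insert_self _ _, x, h1⟩
    · rcases k with _ | k
      · simp [w0] at h1
      rw [w2 _ _ le_rfl] at h1
      obtain ⟨j, i, h4, rfl⟩ := e1 k h1
      rw [hsm, pow_zero, mul_one] at h3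
      have h5 := Nat.le_log_of_pow_le (by norm_num) (((e2 j i h4).2.1.trans h3).trans hR)
      exact ⟨_, mem_insert_of_mem (mem_image.2 ⟨(⟨j, i⟩, r), by simp [S, h4]; omega, rfl⟩), x, h2⟩
  have hex : ∀ n, ∃ E, IsFolner M.gensG n E := fun n => ⟨_, (hup n).choose_spec.1⟩
  obtain ⟨K, hK⟩ : ∃ K, K = Fintype.card Md := ⟨_, rfl⟩
  obtain ⟨a, ha⟩ : ∃ a, a = 2 * #M.gensG := ⟨_, rfl⟩
  obtain ⟨c, c1, c2, c3⟩ : ∃ c, 128 * (pr m * 2 ^ (J + 1)) ≤ c ∧ a ≤ c ∧
      a + (a + 1) * (1 + 2 * K) + K * ((1 + M.B) * (M.N * (2 * a))) ≤ c :=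
    ⟨_, le_max_left _ _, le_max_of_le_right (le_max_left _ _), le_max_of_le_right (le_max_right _ _)⟩
  have p2 := (pr_prime m).two_le
  refine ⟨folner M.gensG, ⟨_, inferInstance, M.grp, M.gensG, M.selfSimilar, M.closure_gensG, hex,
    pq_refl _, pq_refl _⟩, c, lt_of_lt_of_le (by positivity) c1, fun n L hL => ?_,
    fun n hn => ?_⟩
  · have hn : 0 < n := by have := Nat.two_pow_pos L; omega
    have hx : ∀ t, ∃ x, 0 < t → t ≤ 2 ^ (J + 1) * n → 2 ^ (J + 1) * n ≤ t * pr m ^ x ∧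
        t * pr m ^ x ≤ pr m * 2 ^ (J + 1) * n := fun t => by
      by_cases ht : 0 < t
      · have h : ∃ x, 2 ^ (J + 1) * n ≤ t * pr m ^ x :=
          ⟨_, (Nat.lt_pow_self p2).le.trans (Nat.le_mul_of_pos_left _ ht)⟩
        refine ⟨Nat.find h, fun _ h1 => ⟨Nat.find_spec h, ?_⟩⟩
        rcases e : Nat.find h with _ | x
        · rw [pow_zero, mul_one, mul_assoc]; exact h1.trans (Nat.le_mul_of_pos_left _ (by omega))
        · have := not_le.1 (Nat.find_min h (m := x) (by omega))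
          rw [pow_succ', mul_left_comm, mul_assoc]
          exact Nat.mul_le_mul_left _ this.le
      · exact ⟨0, fun h => absurd h ht⟩
    choose X hX using hx
    obtain ⟨E, hE, e⟩ := folner_spec (hex (c * n))
    have h1 := M.lower (S L) q (fun p => tk (W (ev p.1 p.2 + 1)) m
      (X (∏ k ∈ range m, pr k ^ F k (ev p.1 p.2))))
      (fun p k hk => by rw [tk, if_neg (by omega), if_neg (by omega)])
      (fun p hp p' hp' h => by
        obtain ⟨h1, h2⟩ := e3 _ _ _ _ (mem_range.1 (mem_sigma.1 hp).2)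
          (mem_range.1 (mem_sigma.1 hp').2) fun k hk => by
            simpa only [tk, hk, if_true, w2 _ _ hk.le] using congrFun h k
        exact Sigma.ext h1 (heq_of_eq h2))
      (fun p hp => hA _ _ (by rw [w2 _ _ le_rfl]; exact (e2 _ _ (mem_range.1 (mem_sigma.1 hp).2)).1))
      (Q := 2 ^ (J + 1) * n) (R := pr m * 2 ^ (J + 1) * n) (fun p hp => by
        obtain ⟨-, h1, h2⟩ := e2 _ _ (mem_range.1 (mem_sigma.1 hp).2)
        rw [hsm]
        refine hX _ (lt_of_lt_of_le (by positivity) h1) (h2.le.trans ?_)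
        have := mem_range.1 (mem_sigma.1 hp).1
        calc 2 ^ (p.1 + J + 1) ≤ 2 ^ (J + L) := Nat.pow_le_pow_right (by omega) (by omega)
          _ ≤ _ := by rw [pow_add, pow_succ, mul_assoc]; gcongr)
      (by positivity) (by rw [← mul_assoc]; gcongr) hE
    rw [e, hS] at h1
    refine (Nat.pow_le_pow_iff_left (n := 2) (by norm_num)).1 (le_trans ?_ h1)
    rw [← pow_mul]
    refine Nat.pow_le_pow_right (by omega) ?_
    have := Nat.two_pow_pos J
    rw [pow_succ, mul_comm n, mul_assoc, mul_assoc]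
    exact Nat.mul_le_mul_left _ (by nlinarith)
  · obtain ⟨E, hE, h⟩ := hup n
    refine (folner_le hE).trans (h.trans ?_)
    have h1 : #(I (2 * #M.gensG * n)) ≤ (1 + M.B) * (1 + ∑ j ∈ range (Nat.log 2 (c * n)), δ j) := by
      refine (card_insert_le _ _).trans ((Nat.add_le_add_right card_image_le 1).trans ?_)
      rw [card_product, hS, card_fin]
      have : ∑ j ∈ range (Nat.log 2 (2 * #M.gensG * n)), δ j ≤ ∑ j ∈ range (Nat.log 2 (c * n)), δ j :=
        sum_le_sum_of_subset (range_subset_range.2 (Nat.log_mono_right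
          (Nat.mul_le_mul_right n (ha ▸ c2))))
      rw [add_mul, one_mul, mul_add M.B, mul_comm _ M.B]
      have := Nat.mul_le_mul_left M.B this
      omega
    rw [← ha, ← hK] at *
    refine (Nat.mul_le_mul_right _ Nat.lt_two_pow_self).trans ?_
    rw [← pow_add]
    refine Nat.pow_le_pow_right (by omega) ?_
    generalize #(I (a * n)) = x at *
    generalize hy : 1 + ∑ j ∈ range (Nat.log 2 (c * n)), δ j = y at *
    have y1 : 1 ≤ y := by omega
    calc _ ≤ a * n * y + ((a * n * y + n * y) * (1 + 2 * K) +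
          K * ((1 + M.B) * y * (M.N * (2 * (a * n))))) := by
          have := Nat.le_mul_of_pos_right (a * n) y1
          exact add_le_add this (add_le_add (Nat.mul_le_mul_right _
            (add_le_add this (Nat.mul_pos hn y1))) (by gcongr))
      _ = (a + (a + 1) * (1 + 2 * K) + K * ((1 + M.B) * (M.N * (2 * a)))) * n * y := by ring
      _ ≤ _ := by gcongr

theorem slow (D : ℕ) (l : ℕ → ℕ) (hm : Monotone l) (h1 : ∃ n, 1 ≤ l n)
    (hD : ∀ n, l n ≤ (Nat.log 2 n + 2) ^ D)
    (hc : LowerSemicomputable fun j => l (2 ^ (j + 1)) - l (2 ^ j)) :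
    IsSelfSimilarFolnerType fun n => 2 ^ (n * l n) := by
  let δ : ℕ → ℕ := fun j => l (2 ^ (j + 1)) - l (2 ^ j) + if j = 0 then l 1 else 0
  have hp : ∀ j, l (2 ^ j) ≤ l (2 ^ (j + 1)) := fun j => hm (Nat.pow_le_pow_right (by omega) (by omega))
  have hs : ∀ L, ∑ j ∈ range (L + 1), δ j = l (2 ^ (L + 1)) := fun L => by
    induction L with
    | zero => have := hp 0; simp [δ] at this ⊢; omega
    | succ L ih => have := hp (L + 1); rw [sum_range_succ, ih]; simp only [δ]; simp; omega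
  obtain ⟨G, ⟨X, hX, Γ, S, a1, a2, a3, a4, a5⟩, c, c0, b1, b2⟩ := exists_group D (δ := δ) (fun j => by
      have := hD (2 ^ (j + 1))
      rw [Nat.log_pow (by omega), ← hs] at this
      exact (single_le_sum (fun _ _ => Nat.zero_le _) (self_mem_range_succ j)).trans this)
    ((Partrec.comp hc (Primrec.to_comp (Primrec.fst.pair (Primrec.nat_sub.comp
      (Primrec.succ.comp Primrec.snd) (Primrec.ite (Primrec.eq.comp Primrec.fst (Primrec.const 0))
        (Primrec.const (l 1)) (Primrec.const 0)))))).of_eq fun p => by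
      have : (p.2 + 1 - if p.1 = 0 then l 1 else 0) ≤ l (2 ^ (p.1 + 1)) - l (2 ^ p.1) ↔
        p.2 < δ p.1 := by simp only [δ]; omega
      exact congrArg (fun q : Prop => Part.assert q fun _ => Part.some ()) (propext this))
  obtain ⟨n0, h0⟩ := h1
  refine ⟨X, hX, Γ, S, a1, a2, a3, pq_trans ⟨c, c0, fun n hn => ?_⟩ a4,
    pq_trans a5 ⟨2 * c * (n0 + 1), by positivity, fun n hn => ?_⟩⟩
  · refine le_trans (Nat.pow_le_pow_right (by omega) (Nat.mul_le_mul_left _ ?_))
      ((b1 n (Nat.log 2 n + 1) ?_).trans (Nat.le_mul_of_pos_left _ c0))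
    · rw [hs]; exact hm (Nat.lt_pow_succ_log_self (by omega) n).le
    · rw [pow_succ']; exact Nat.mul_le_mul_left _ (Nat.pow_log_le_self 2 (by omega))
  · refine (b2 n hn).trans (le_trans (Nat.pow_le_pow_right (by omega) ?_)
      (Nat.le_mul_of_pos_left _ (by positivity)))
    have d1 : 1 ≤ l (2 * c * (n0 + 1) * n) := h0.trans (hm (by nlinarith [Nat.mul_pos c0 hn]))
    have d2 : ∑ j ∈ range (Nat.log 2 (c * n)), δ j ≤ l (2 * c * (n0 + 1) * n) := by
      rcases e : Nat.log 2 (c * n) with _ | L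
      · simp
      · rw [hs, ← e]
        exact hm ((Nat.pow_log_le_self 2 (Nat.mul_pos c0 hn).ne').trans
          (Nat.mul_le_mul_right _ (by nlinarith)))
    generalize l (2 * c * (n0 + 1) * n) = y at *
    calc _ ≤ c * n * (y + y) := by gcongr
      _ = 2 * c * 1 * n * y := by ring
      _ ≤ _ := by gcongr; omega

end Pool.Agent.MP_e6aac2_al.H44
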